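import Mathlib

set_option autoImplicit false

/-! # Artin's density for integers with a prescribed squarefree part: definitions -/

namespace Pool.Agent.H730R2.AA

open Finset

/-- number of primes `p ≤ x` modulo which `n` is a primitive root -/
noncomputable def cnt (n : ℤ) (x : ℕ) : ℕ := by
  classical
  exact ((Finset.range (x + 1)).filter
    (fun p : ℕ => p.Prime ∧ orderOf (n : ZMod p) = p - 1)).card

/-- the conjectural density for integers with squarefree part `D ≡ 1 mod 4` -/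
noncomputable def dens (D : ℤ) : ℝ :=
  (1 - ((ArithmeticFunction.moebius D.natAbs : ℤ) : ℝ) *
      ∏ q ∈ D.natAbs.primeFactors, (1 / ((q : ℝ) ^ 2 - (q : ℝ) - 1))) *
    ∏' p : Nat.Primes, (1 - 1 / (((p : ℕ) : ℝ) * (((p : ℕ) : ℝ) - 1)))

/-- `φ(p-1)/(p-1)` -/
noncomputable def rho (p : ℕ) : ℝ := (Nat.totient (p - 1) : ℝ) / ((p - 1 : ℕ) : ℝ)

/-- the good primes up to `x` -/
def PR (D : ℤ) (x : ℕ) : Finset ℕ :=
  (Finset.range (x + 1)).filter (fun p => p.Prime ∧ p ≠ 2 ∧ ¬ ((p : ℤ) ∣ D))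

/-- main term -/
noncomputable def mainT (D : ℤ) (x : ℕ) : ℝ :=
  ∑ p ∈ PR D x, rho p * (1 - (jacobiSym D p : ℝ))

/-- nonprincipal characters modulo `p` -/
noncomputable def NT (p : ℕ) : Finset (DirichletCharacter ℂ p) := by
  classical
  exact Finset.univ.filter (fun χ => χ ≠ 1)

/-- the integers `m ≤ M` that are exceptional at `x` with respect to the value `v` -/
noncomputable def bad (D : ℤ) (ε v : ℝ) (x M : ℕ) : Finset ℕ := by
  classical
  exact (Finset.Icc 1 M).filter (fun m : ℕ => ε * (Nat.primeCounting x : ℝ) <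
      |(cnt (D * (m : ℤ) ^ 2) x : ℝ) - v|)

/-- the integers `m ≤ M` that are exceptional at some `x` with `X ≤ x ≤ Y` -/
noncomputable def badAll (D : ℤ) (ε : ℝ) (X : ℕ) (Y : ℝ) (M : ℕ) : Finset ℕ := by
  classical
  exact (Finset.Icc 1 M).filter (fun m : ℕ => ∃ x : ℕ, X ≤ x ∧ (x : ℝ) ≤ Y ∧
      ε * (Nat.primeCounting x : ℝ) <
        |(cnt (D * (m : ℤ) ^ 2) x : ℝ) - dens D * (Nat.primeCounting x : ℝ)|)

end Pool.Agent.H730R2.AA
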