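import Mathlib
import Pool.Agent.H730R2.AA.Defs

set_option autoImplicit false

/-! # Dirichlet powers of an indicator function and their second moment -/

namespace Pool.Agent.H730R2.AA

open Finset

namespace Tau

/-- the indicator of `E` -/
noncomputable def ind (E : Finset ℕ) (h0 : 0 ∉ E) : ArithmeticFunction ℝ where
  toFun n := by classical exact if n ∈ E then 1 else 0
  map_zero' := by simp [h0]

lemma ind_apply (E : Finset ℕ) (h0 : 0 ∉ E) (n : ℕ) [Decidable (n ∈ E)] :
    ind E h0 n = if n ∈ E then 1 else 0 := by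
  show (_ : ℝ) = _
  simp only [ind, ArithmeticFunction.coe_mk]
  congr

lemma dsum {α : Type*} [AddCommMonoid α] (N1 N2 : ℕ) (H : ℕ → ℕ → α)
    (h : ∀ a b, H a b ≠ 0 → a ∈ Icc 1 N1 ∧ b ∈ Icc 1 N2) :
    ∑ n ∈ Icc 1 (N1 * N2), ∑ x ∈ n.divisorsAntidiagonal, H x.1 x.2 =
      ∑ a ∈ Icc 1 N1, ∑ b ∈ Icc 1 N2, H a b := by
  classical
  rw [← sum_product' (Icc 1 N1) (Icc 1 N2) H]
  rw [← sum_fiberwise_of_maps_to (s := Icc 1 N1 ×ˢ Icc 1 N2) (t := Icc 1 (N1 * N2))
    (g := fun x => x.1 * x.2)]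
  · apply sum_congr rfl
    intro n hn
    symm
    apply sum_subset
    · intro x hx
      rw [mem_filter, mem_product] at hx
      rw [Nat.mem_divisorsAntidiagonal]
      rw [mem_Icc] at hn
      exact ⟨hx.2, by omega⟩
    · intro x hx hx2
      by_contra h0
      obtain ⟨h1, h2⟩ := h _ _ h0
      apply hx2
      rw [mem_filter, mem_product]
      exact ⟨⟨h1, h2⟩, (Nat.mem_divisorsAntidiagonal.1 hx).1⟩
  · intro x hx
    rw [mem_product, mem_Icc, mem_Icc] at hx
    rw [mem_Icc]
    exact ⟨Nat.mul_pos hx.1.1 hx.2.1, Nat.mul_le_mul hx.1.2 hx.2.2⟩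

/-- truncated double sums -/
lemma dsum_le (M : ℕ) (F G : ℕ → ℝ) (hF : ∀ n, 0 ≤ F n) (hG : ∀ n, 0 ≤ G n) :
    ∑ n ∈ Icc 1 M, ∑ x ∈ n.divisorsAntidiagonal, F x.1 * G x.2 ≤
      (∑ a ∈ Icc 1 M, F a) * ∑ b ∈ Icc 1 M, G b := by
  classical
  rcases Nat.eq_zero_or_pos M with h | hM
  · subst h; simp
  have key := dsum M M (fun a b => (if a ∈ Icc 1 M then F a else 0) *
    (if b ∈ Icc 1 M then G b else 0)) (by
      intro a b h
      constructor
      · by_contra h1; simp [h1] at h
      · by_contra h1; simp [h1] at h)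
  have e1 : (∑ a ∈ Icc 1 M, F a) * ∑ b ∈ Icc 1 M, G b =
      ∑ a ∈ Icc 1 M, ∑ b ∈ Icc 1 M, ((if a ∈ Icc 1 M then F a else 0) *
    (if b ∈ Icc 1 M then G b else 0)) := by
    rw [sum_mul_sum]
    apply sum_congr rfl
    intro a ha
    apply sum_congr rfl
    intro b hb
    rw [if_pos ha, if_pos hb]
  rw [e1, ← key]
  have e2 : ∀ n ∈ Icc 1 M, ∑ x ∈ n.divisorsAntidiagonal, F x.1 * G x.2 =
      ∑ x ∈ n.divisorsAntidiagonal, ((if x.1 ∈ Icc 1 M then F x.1 else 0) *
    (if x.2 ∈ Icc 1 M then G x.2 else 0)) := by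
    intro n hn
    apply sum_congr rfl
    intro x hx
    rw [Nat.mem_divisorsAntidiagonal] at hx
    rw [mem_Icc] at hn
    have h1 : 0 < x.1 := by
      rcases Nat.eq_zero_or_pos x.1 with h | h
      · rw [h] at hx; omega
      · exact h
    have h2 : 0 < x.2 := by
      rcases Nat.eq_zero_or_pos x.2 with h | h
      · rw [h] at hx; omega
      · exact h
    have h3 : x.1 ≤ n := by rw [← hx.1]; exact Nat.le_mul_of_pos_right _ h2
    have h4 : x.2 ≤ n := by rw [← hx.1]; exact Nat.le_mul_of_pos_left _ h1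
    rw [if_pos, if_pos]
    · rw [mem_Icc]; omega
    · rw [mem_Icc]; omega
  rw [sum_congr rfl e2]
  apply sum_le_sum_of_subset_of_nonneg
  · apply Icc_subset_Icc le_rfl
    exact Nat.le_mul_of_pos_left _ hM
  · intro n _ _
    apply sum_nonneg
    intro x _
    apply mul_nonneg
    · split_ifs
      · exact hF _
      · exact le_rfl
    · split_ifs
      · exact hG _
      · exact le_rfl

/-- support of the powers -/
lemma pow_supp (M : ℕ) (e : ArithmeticFunction ℝ) (he : ∀ n, e n ≠ 0 → n ∈ Icc 1 M) (r : ℕ) :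
    ∀ n, (e ^ r) n ≠ 0 → n ∈ Icc 1 (M ^ r) := by
  induction r with
  | zero =>
    intro n hn
    rw [pow_zero, ArithmeticFunction.one_apply] at hn
    rw [pow_zero, mem_Icc]
    by_contra h
    rw [if_neg (by omega)] at hn
    exact hn rfl
  | succ r ih =>
    intro n hn
    rw [pow_succ, ArithmeticFunction.mul_apply] at hn
    obtain ⟨x, hx, hx2⟩ := exists_ne_zero_of_sum_ne_zero hn
    rw [Nat.mem_divisorsAntidiagonal] at hx
    have h1 := ih x.1 (left_ne_zero_of_mul hx2)
    have h2 := he x.2 (right_ne_zero_of_mul hx2)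
    rw [mem_Icc] at h1 h2 ⊢
    rw [← hx.1, pow_succ]
    exact ⟨Nat.mul_pos h1.1 h2.1, Nat.mul_le_mul h1.2 h2.2⟩

lemma pow_identity (M : ℕ) (e : ArithmeticFunction ℝ) (he : ∀ n, e n ≠ 0 → n ∈ Icc 1 M)
    (g : ℕ → ℂ) (g1 : g 1 = 1) (gm : ∀ a b, g (a * b) = g a * g b) (r : ℕ) :
    (∑ m ∈ Icc 1 M, (e m : ℂ) * g m) ^ r = ∑ n ∈ Icc 1 (M ^ r), ((e ^ r) n : ℂ) * g n := by
  induction r with
  | zero => simp [g1]
  | succ r ih =>
    rw [pow_succ, ih]
    rw [pow_succ M r]
    have h := dsum (M ^ r) M (fun a b => (((e ^ r) a : ℝ) : ℂ) * g a * ((e b : ℂ) * g b)) (by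
      intro a b h
      constructor
      · apply pow_supp M e he r
        intro h0
        simp [h0] at h
      · apply he
        intro h0
        simp [h0] at h)
    rw [sum_mul_sum]
    rw [← h]
    apply sum_congr rfl
    intro n _
    rw [pow_succ e r, ArithmeticFunction.mul_apply]
    push_cast
    rw [sum_mul]
    apply sum_congr rfl
    intro x hx
    rw [Nat.mem_divisorsAntidiagonal] at hx
    rw [← hx.1, gm]
    ring

/-- the generalised divisor function -/
noncomputable def tau (r : ℕ) : ArithmeticFunction ℝ := ((ArithmeticFunction.zeta : ArithmeticFunction ℕ) : ArithmeticFunction ℝ) ^ r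

lemma tau_zero_apply (n : ℕ) : tau 0 n = if n = 1 then 1 else 0 := by
  rw [tau, pow_zero, ArithmeticFunction.one_apply]

lemma tau_succ_apply (r n : ℕ) : tau (r + 1) n = ∑ d ∈ n.divisors, tau r d := by
  rw [tau, pow_succ, ArithmeticFunction.coe_mul_zeta_apply]
  rfl

lemma tau_nonneg (r n : ℕ) : 0 ≤ tau r n := by
  induction r generalizing n with
  | zero => rw [tau_zero_apply]; split_ifs <;> norm_num
  | succ r ih => rw [tau_succ_apply]; exact sum_nonneg fun d _ => ih d

lemma sum_image_le' {ι κ : Type*} [DecidableEq κ] (s : Finset ι) (g : ι → κ) (f : κ → ℝ)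
    (hf : ∀ k, 0 ≤ f k) : ∑ k ∈ s.image g, f k ≤ ∑ i ∈ s, f (g i) := by
  rw [← sum_fiberwise_of_maps_to (s := s) (t := s.image g) (g := g)
    (fun x hx => mem_image_of_mem g hx)]
  apply sum_le_sum
  intro k hk
  obtain ⟨i, hi, rfl⟩ := mem_image.1 hk
  have := single_le_sum (s := s.filter (fun j => g j = g i)) (f := fun j => f (g j))
    (fun j _ => hf _) (mem_filter.2 ⟨hi, rfl⟩)
  exact this

open scoped Pointwise in
lemma tau_submul (r a b : ℕ) : tau r (a * b) ≤ tau r a * tau r b := by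
  classical
  induction r generalizing a b with
  | zero =>
    rw [tau_zero_apply, tau_zero_apply, tau_zero_apply]
    by_cases h : a * b = 1
    · have h1 : a = 1 := Nat.dvd_one.1 ⟨b, h.symm⟩
      have h2 : b = 1 := Nat.dvd_one.1 ⟨a, by rw [mul_comm]; exact h.symm⟩
      rw [if_pos h, if_pos h1, if_pos h2]; norm_num
    · rw [if_neg h]
      split_ifs <;> norm_num
  | succ r ih =>
    rw [tau_succ_apply, tau_succ_apply, tau_succ_apply, sum_mul_sum, ← sum_product']
    rw [Nat.divisors_mul]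
    have : (a.divisors * b.divisors : Finset ℕ) =
        (a.divisors ×ˢ b.divisors).image (fun x => x.1 * x.2) := rfl
    rw [this]
    refine (sum_image_le' _ _ _ (tau_nonneg r)).trans ?_
    apply sum_le_sum
    intro x _
    exact ih _ _

lemma harm (M : ℕ) : ∑ d ∈ Icc 1 M, (1 : ℝ) / d ≤ 1 + Real.log M := by
  have h := harmonic_le_one_add_log M
  rw [harmonic_eq_sum_Icc] at h
  push_cast at h
  simpa using h

lemma log_nn (M : ℕ) : 0 ≤ 1 + Real.log (M : ℝ) := by
  have := Real.log_natCast_nonneg M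
  linarith

lemma tau_log (r M : ℕ) (hM : 1 ≤ M) :
    ∑ d ∈ Icc 1 M, tau r d / d ≤ (1 + Real.log M) ^ r := by
  induction r with
  | zero =>
    simp_rw [tau_zero_apply]
    rw [sum_eq_single_of_mem 1 (by rw [mem_Icc]; omega)]
    · simp
    · intro b _ hb
      simp [hb]
  | succ r ih =>
    have h1 : ∑ d ∈ Icc 1 M, tau (r + 1) d / d =
        ∑ n ∈ Icc 1 M, ∑ x ∈ n.divisorsAntidiagonal, (tau r x.1 / x.1) * (1 / (x.2 : ℝ)) := by
      apply sum_congr rfl
      intro n hn
      rw [mem_Icc] at hn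
      rw [tau_succ_apply, sum_div]
      rw [Nat.sum_divisorsAntidiagonal (n := n) (fun a b => (tau r a / a) * (1 / (b : ℝ)))]
      apply sum_congr rfl
      intro d hd
      have hd' := Nat.dvd_of_mem_divisors hd
      have hd0 : (d : ℝ) ≠ 0 := by
        have := Nat.pos_of_dvd_of_pos hd' (by omega)
        positivity
      have hn0 : (n : ℝ) ≠ 0 := by
        have : 0 < n := by omega
        positivity
      rw [Nat.cast_div hd' hd0]
      field_simp
    rw [h1]
    refine (dsum_le M (fun a => tau r a / a) (fun b => 1 / (b : ℝ))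
      (fun n => div_nonneg (tau_nonneg _ _) (Nat.cast_nonneg _)) (fun n => by positivity)).trans ?_
    rw [pow_succ]
    apply mul_le_mul ih (harm M)
    · exact sum_nonneg fun n _ => by positivity
    · exact pow_nonneg (log_nn M) _

lemma Ioc_Icc (N : ℕ) : Ioc 0 N = Icc 1 N := by
  ext n; simp; omega

lemma tau_sum (r M : ℕ) (hM : 1 ≤ M) :
    ∑ d ∈ Icc 1 M, tau (r + 1) d ≤ M * (1 + Real.log M) ^ r := by
  have h := ArithmeticFunction.sum_Ioc_mul_zeta_eq_sum (R := ℝ) (tau r) M
  rw [Ioc_Icc] at h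
  have h2 : ∑ d ∈ Icc 1 M, tau (r + 1) d =
      ∑ n ∈ Icc 1 M, (tau r * ((ArithmeticFunction.zeta : ArithmeticFunction ℕ) : ArithmeticFunction ℝ)) n := by
    apply sum_congr rfl
    intro n _
    rw [tau, pow_succ]; rfl
  rw [h2, h]
  calc ∑ n ∈ Icc 1 M, tau r n * ((M / n : ℕ) : ℝ) ≤ ∑ n ∈ Icc 1 M, M * (tau r n / n) := by
        apply sum_le_sum
        intro n _
        have h3 : ((M / n : ℕ) : ℝ) ≤ (M : ℝ) / n := Nat.cast_div_le
        calc tau r n * ((M / n : ℕ) : ℝ) ≤ tau r n * ((M : ℝ) / n) :=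
              mul_le_mul_of_nonneg_left h3 (tau_nonneg _ _)
          _ = M * (tau r n / n) := by ring
    _ = M * ∑ n ∈ Icc 1 M, (tau r n / n) := by rw [mul_sum]
    _ ≤ _ := mul_le_mul_of_nonneg_left (tau_log r M hM) (Nat.cast_nonneg _)

lemma pow_nonneg' (e : ArithmeticFunction ℝ) (he : ∀ n, 0 ≤ e n) (r n : ℕ) : 0 ≤ (e ^ r) n := by
  induction r generalizing n with
  | zero => rw [pow_zero, ArithmeticFunction.one_apply]; split_ifs <;> norm_num
  | succ r ih =>
    rw [pow_succ, ArithmeticFunction.mul_apply]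
    exact sum_nonneg fun x _ => mul_nonneg (ih _) (he _)

lemma pow_le_tau (e : ArithmeticFunction ℝ) (he : ∀ n, 0 ≤ e n) (he1 : ∀ n, e n ≤ 1) (r n : ℕ) :
    (e ^ r) n ≤ tau r n := by
  induction r generalizing n with
  | zero => rw [pow_zero, tau, pow_zero]
  | succ r ih =>
    rw [pow_succ, ArithmeticFunction.mul_apply, tau_succ_apply]
    rw [← Nat.sum_divisorsAntidiagonal (n := n) (fun a _ => tau r a)]
    apply sum_le_sum
    intro x _
    calc (e ^ r) x.1 * e x.2 ≤ (e ^ r) x.1 * 1 :=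
          mul_le_mul_of_nonneg_left (he1 _) (pow_nonneg' e he r _)
      _ ≤ _ := by rw [mul_one]; exact ih _

lemma second (M : ℕ) (e : ArithmeticFunction ℝ) (he : ∀ n, e n ≠ 0 → n ∈ Icc 1 M)
    (he0 : ∀ n, 0 ≤ e n) (s k : ℕ) :
    ∑ n ∈ Icc 1 (M ^ k), (e ^ k) n * tau s n ≤ (∑ m ∈ Icc 1 M, e m * tau s m) ^ k := by
  induction k with
  | zero =>
    simp only [pow_zero, Icc_self, sum_singleton, ArithmeticFunction.one_one, one_mul]
    induction s with
    | zero => rw [tau_zero_apply]; norm_num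
    | succ s ih => rw [tau_succ_apply]; simpa using ih
  | succ k ih =>
    rw [pow_succ M k, pow_succ (∑ m ∈ Icc 1 M, e m * tau s m) k]
    have h := dsum (M ^ k) M (fun a b => ((e ^ k) a * tau s a) * (e b * tau s b)) (by
      intro a b h
      constructor
      · apply pow_supp M e he k
        intro h0
        simp [h0] at h
      · apply he
        intro h0
        simp [h0] at h)
    calc ∑ n ∈ Icc 1 (M ^ k * M), (e ^ (k + 1)) n * tau s n
        ≤ ∑ n ∈ Icc 1 (M ^ k * M), ∑ x ∈ n.divisorsAntidiagonal,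
          ((e ^ k) x.1 * tau s x.1) * (e x.2 * tau s x.2) := by
          apply sum_le_sum
          intro n _
          rw [pow_succ e k, ArithmeticFunction.mul_apply, sum_mul]
          apply sum_le_sum
          intro x hx
          rw [Nat.mem_divisorsAntidiagonal] at hx
          rw [← hx.1]
          calc (e ^ k) x.1 * e x.2 * tau s (x.1 * x.2)
              ≤ (e ^ k) x.1 * e x.2 * (tau s x.1 * tau s x.2) :=
                mul_le_mul_of_nonneg_left (tau_submul _ _ _)
                  (mul_nonneg (pow_nonneg' e he0 _ _) (he0 _))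
            _ = _ := by ring
      _ = (∑ a ∈ Icc 1 (M ^ k), (e ^ k) a * tau s a) * ∑ b ∈ Icc 1 M, e b * tau s b := by
          rw [h, sum_mul_sum]
      _ ≤ _ := mul_le_mul_of_nonneg_right ih
          (sum_nonneg fun b _ => mul_nonneg (he0 _) (tau_nonneg _ _))

end Tau

open Tau

theorem moment (r M : ℕ) (hr : 1 ≤ r) (hM : 1 ≤ M) (E : Finset ℕ) (hE : E ⊆ Icc 1 M) :
    ∃ A : ℕ → ℝ,
      (∀ (q : ℕ) (χ : DirichletCharacter ℂ q), (∑ m ∈ E, χ (m : ZMod q)) ^ r =
        ∑ n ∈ Icc 1 (M ^ r), (A n : ℂ) * χ (n : ZMod q)) ∧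
      ∑ n ∈ Icc 1 (M ^ r), A n ^ 2 ≤ ((M : ℝ) * (1 + Real.log M) ^ (r - 1)) ^ r := by
  classical
  have h0 : 0 ∉ E := fun h => by
    have := mem_Icc.1 (hE h)
    omega
  set e := ind E h0 with he_def
  have he : ∀ n, e n ≠ 0 → n ∈ Icc 1 M := by
    intro n hn
    apply hE
    by_contra h
    apply hn
    rw [he_def, ind_apply, if_neg h]
  have he0 : ∀ n, 0 ≤ e n := by
    intro n
    rw [he_def, ind_apply]
    split_ifs <;> norm_num
  have he1 : ∀ n, e n ≤ 1 := by
    intro n
    rw [he_def, ind_apply]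
    split_ifs <;> norm_num
  refine ⟨fun n => (e ^ r) n, ?_, ?_⟩
  · intro q χ
    have h := pow_identity M e he (fun n => χ (n : ZMod q)) (by simp) (by
      intro a b
      push_cast
      rw [map_mul]) r
    rw [← h]
    congr 1
    rw [← sum_subset hE]
    · apply sum_congr rfl
      intro m hm
      rw [he_def, ind_apply, if_pos hm]
      simp
    · intro m _ hm
      rw [he_def, ind_apply, if_neg hm]
      simp
  · obtain ⟨s, rfl⟩ : ∃ s, r = s + 1 := ⟨r - 1, by omega⟩
    calc ∑ n ∈ Icc 1 (M ^ (s + 1)), ((e ^ (s + 1)) n) ^ 2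
        ≤ ∑ n ∈ Icc 1 (M ^ (s + 1)), (e ^ (s + 1)) n * tau (s + 1) n := by
          apply sum_le_sum
          intro n _
          rw [sq]
          exact mul_le_mul_of_nonneg_left (pow_le_tau e he0 he1 _ _) (pow_nonneg' e he0 _ _)
      _ ≤ (∑ m ∈ Icc 1 M, e m * tau (s + 1) m) ^ (s + 1) := second M e he he0 _ _
      _ ≤ (∑ m ∈ Icc 1 M, tau (s + 1) m) ^ (s + 1) := by
          apply pow_le_pow_left₀
          · exact sum_nonneg fun b _ => mul_nonneg (he0 _) (tau_nonneg _ _)
          · apply sum_le_sum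
            intro m _
            calc e m * tau (s + 1) m ≤ 1 * tau (s + 1) m :=
                  mul_le_mul_of_nonneg_right (he1 _) (tau_nonneg _ _)
              _ = _ := one_mul _
      _ ≤ _ := by
          apply pow_le_pow_left₀
          · exact sum_nonneg fun b _ => tau_nonneg _ _
          · exact tau_sum s M hM

theorem sum_divisors_card (x : ℕ) (hx : 1 ≤ x) :
    ∑ n ∈ Icc 1 x, (n.divisors.card : ℝ) ≤ x * (1 + Real.log x) := by
  have h := tau_sum 1 x hx
  rw [pow_one] at h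
  refine le_trans (le_of_eq ?_) h
  apply sum_congr rfl
  intro n _
  rw [tau_succ_apply]
  have : ∀ d ∈ n.divisors, tau 1 d = 1 := by
    intro d hd
    rw [tau_succ_apply]
    simp_rw [tau_zero_apply]
    have hd0 := Nat.pos_of_mem_divisors hd
    rw [sum_eq_single_of_mem 1 (by rw [Nat.mem_divisors]; exact ⟨one_dvd _, by omega⟩)]
    · simp
    · intro b _ hb
      simp [hb]
  rw [sum_congr rfl this]
  simp

end Pool.Agent.H730R2.AA
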