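import Pool.Agent.H730R2.AA.Defs

set_option autoImplicit false

namespace Pool.Agent.H730R2.AA

open Finset

/-- primes `≡ 1 mod d`, weighted with the quadratic character of `D` -/
noncomputable def Wd (D : ℤ) (d x : ℕ) : ℝ :=
  ∑ p ∈ (PR D x).filter (fun p => p % d = 1 % d),
    (1 + (if 2 ∣ d then (jacobiSym D p : ℝ) else 0))

/-- limit of `Wd / π` -/
noncomputable def om (D : ℤ) (d : ℕ) : ℝ :=
  (1 + (if 2 * D.natAbs ∣ d then 1 else 0)) / (Nat.totient d : ℝ)

end Pool.Agent.H730R2.AA
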