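import Mathlib
import Pool.Agent.H730R2.AA.WdDefs

set_option autoImplicit false

/-! # T4c: the Euler product of the density -/

namespace Pool.Agent.H730R2.AA

open Finset Filter ArithmeticFunction

namespace Euler

theorem card_divisors_le (k : ℕ) : k.divisors.card ≤ 2 * Nat.sqrt k := by
  classical
  rcases Nat.eq_zero_or_pos k with rfl | hk
  · simp
  have h1 : k.divisors ⊆ (Finset.Icc 1 (Nat.sqrt k)) ∪
      (Finset.Icc 1 (Nat.sqrt k)).image (fun d => k / d) := by
    intro d hd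
    have hdk := Nat.dvd_of_mem_divisors hd
    have hd0 := Nat.pos_of_mem_divisors hd
    rw [Finset.mem_union]
    by_cases h : d ≤ Nat.sqrt k
    · left; rw [Finset.mem_Icc]; exact ⟨hd0, h⟩
    · right
      rw [Finset.mem_image]
      refine ⟨k / d, ?_, Nat.div_div_self hdk hk.ne'⟩
      rw [Finset.mem_Icc]
      constructor
      · exact Nat.div_pos (Nat.le_of_dvd hk hdk) hd0
      · by_contra hcon
        push Not at h hcon
        have h2 : d * (k / d) = k := Nat.mul_div_cancel' hdk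
        have h3 := Nat.lt_succ_sqrt k
        have h4 : (Nat.sqrt k + 1) * (Nat.sqrt k + 1) ≤ d * (k / d) := Nat.mul_le_mul h hcon
        rw [h2] at h4
        exact absurd h3 (not_lt.mpr h4)
  calc k.divisors.card ≤ ((Finset.Icc 1 (Nat.sqrt k)) ∪
      (Finset.Icc 1 (Nat.sqrt k)).image (fun d => k / d)).card := Finset.card_le_card h1
    _ ≤ (Finset.Icc 1 (Nat.sqrt k)).card +
      ((Finset.Icc 1 (Nat.sqrt k)).image (fun d => k / d)).card := Finset.card_union_le _ _
    _ ≤ Nat.sqrt k + Nat.sqrt k := by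
        apply add_le_add
        · simp
        · exact Finset.card_image_le.trans (by simp)
    _ = 2 * Nat.sqrt k := by ring

theorem sqrt_le_totient (k : ℕ) (hk : 1 ≤ k) : Real.sqrt k ≤ 2 * Nat.totient k := by
  have h1 : k ≤ k.divisors.card * Nat.totient k := by
    calc k = ∑ e ∈ k.divisors, Nat.totient e := (Nat.sum_totient k).symm
      _ ≤ ∑ _e ∈ k.divisors, Nat.totient k := by
          apply Finset.sum_le_sum
          intro e he
          exact Nat.le_of_dvd (Nat.totient_pos.mpr (by omega))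
            (Nat.totient_dvd_of_dvd (Nat.dvd_of_mem_divisors he))
      _ = k.divisors.card * Nat.totient k := by rw [Finset.sum_const, smul_eq_mul]
  have h2 := card_divisors_le k
  have h3 : k ≤ 2 * Nat.sqrt k * Nat.totient k := h1.trans (Nat.mul_le_mul_right _ h2)
  have h4 : (k : ℝ) ≤ 2 * (Nat.sqrt k : ℝ) * Nat.totient k := by exact_mod_cast h3
  have h5 : (Nat.sqrt k : ℝ) ≤ Real.sqrt k := Real.nat_sqrt_le_real_sqrt
  have h6 : 0 < Real.sqrt k := Real.sqrt_pos.mpr (by exact_mod_cast (by omega : 0 < k))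
  have h7 : Real.sqrt k * Real.sqrt k = k := Real.mul_self_sqrt (by positivity)
  have h8 : (0 : ℝ) ≤ Nat.totient k := by positivity
  have h9 : Real.sqrt k * Real.sqrt k ≤ Real.sqrt k * (2 * Nat.totient k) := by
    rw [h7]
    refine h4.trans ?_
    nlinarith
  exact le_of_mul_le_mul_left h9 h6

/-- `μ(d)/(d φ(d))` -/
noncomputable def hh (d : ℕ) : ℝ := ((moebius d : ℤ) : ℝ) / d / (Nat.totient d : ℝ)

/-- the local factor -/
noncomputable def uu (p : ℕ) : ℝ := 1 / ((p : ℝ) * ((p : ℝ) - 1))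

theorem hh_zero : hh 0 = 0 := by simp [hh]

theorem hh_one : hh 1 = 1 := by simp [hh]

theorem hh_mul {m n : ℕ} (h : Nat.Coprime m n) : hh (m * n) = hh m * hh n := by
  unfold hh
  rw [isMultiplicative_moebius.map_mul_of_coprime h, Nat.totient_mul h]
  push_cast
  rw [div_div, div_div, div_div, div_mul_div_comm]
  congr 1
  ring

theorem hh_prime {p : ℕ} (hp : p.Prime) : hh p = -uu p := by
  unfold hh uu
  rw [moebius_apply_prime hp, Nat.totient_prime hp, Nat.cast_sub hp.one_le]
  push_cast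
  rw [div_div, neg_div]

theorem hh_prime_pow {p k : ℕ} (hp : p.Prime) (hk : 2 ≤ k) : hh (p ^ k) = 0 := by
  unfold hh
  rw [moebius_apply_prime_pow hp (by omega), if_neg (by omega)]
  simp

theorem hh_not_sqf {d : ℕ} (hd : ¬ Squarefree d) : hh d = 0 := by
  unfold hh
  rw [moebius_eq_zero_of_not_squarefree hd]
  simp

theorem hh_bound (d : ℕ) : |hh d| ≤ 2 * (1 / (d : ℝ) ^ (3 / 2 : ℝ)) := by
  rcases Nat.eq_zero_or_pos d with rfl | hd
  · rw [hh_zero, abs_zero]; positivity
  unfold hh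
  have hd0 : (0 : ℝ) < d := by exact_mod_cast hd
  have hs : 0 < Real.sqrt d := Real.sqrt_pos.mpr hd0
  have ht : (0 : ℝ) < Nat.totient d := by exact_mod_cast Nat.totient_pos.mpr hd
  have h1 : |((moebius d : ℤ) : ℝ)| ≤ 1 := by exact_mod_cast abs_moebius_le_one (n := d)
  have h2 := sqrt_le_totient d hd
  rw [div_div, abs_div, abs_of_pos (by positivity : (0 : ℝ) < (d : ℝ) * Nat.totient d)]
  have h3 : (d : ℝ) ^ (3 / 2 : ℝ) = d * Real.sqrt d := by
    rw [show (3 / 2 : ℝ) = 1 + 1 / 2 by norm_num, Real.rpow_add hd0, Real.rpow_one,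
      ← Real.sqrt_eq_rpow]
  rw [h3, mul_one_div, div_le_div_iff₀ (by positivity) (by positivity)]
  have h4 : (d : ℝ) * Real.sqrt d ≤ 2 * (d * Nat.totient d) := by nlinarith
  have h5 : (0 : ℝ) ≤ d * Real.sqrt d := by positivity
  nlinarith

theorem summable_bound : Summable fun d : ℕ => 2 * (1 / (d : ℝ) ^ (3 / 2 : ℝ)) :=
  (Real.summable_one_div_nat_rpow.mpr (by norm_num)).mul_left 2

theorem hh_summable : Summable fun d => ‖hh d‖ :=
  Summable.of_nonneg_of_le (fun _ => norm_nonneg _) (fun d => by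
    rw [Real.norm_eq_abs]; exact hh_bound d) summable_bound

/-- the part of `hh` coprime to `N` -/
noncomputable def gg (N d : ℕ) : ℝ := if Nat.Coprime N d then hh d else 0

theorem gg_zero (N : ℕ) : gg N 0 = 0 := by
  unfold gg; rw [hh_zero]; simp

theorem gg_one (N : ℕ) : gg N 1 = 1 := by
  unfold gg; rw [if_pos (Nat.coprime_one_right N), hh_one]

theorem gg_mul (N : ℕ) {m n : ℕ} (h : Nat.Coprime m n) : gg N (m * n) = gg N m * gg N n := by
  unfold gg
  by_cases h1 : Nat.Coprime N m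
  · by_cases h2 : Nat.Coprime N n
    · rw [if_pos (Nat.coprime_mul_iff_right.mpr ⟨h1, h2⟩), if_pos h1, if_pos h2, hh_mul h]
    · rw [if_neg (fun h3 => h2 (Nat.coprime_mul_iff_right.mp h3).2), if_neg h2, mul_zero]
  · rw [if_neg (fun h3 => h1 (Nat.coprime_mul_iff_right.mp h3).1), if_neg h1, zero_mul]

theorem gg_le (N d : ℕ) : ‖gg N d‖ ≤ ‖hh d‖ := by
  unfold gg
  by_cases h : Nat.Coprime N d
  · rw [if_pos h]
  · rw [if_neg h, norm_zero]; exact norm_nonneg _

theorem gg_summable (N : ℕ) : Summable fun d => ‖gg N d‖ :=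
  Summable.of_nonneg_of_le (fun _ => norm_nonneg _) (gg_le N) hh_summable

/-- Euler product for `gg` (with `N = 1`: for `hh`) -/
theorem gg_euler (N : ℕ) : HasProd (fun p : Nat.Primes => if (p : ℕ) ∣ N then (1 : ℝ) else 1 - uu p)
    (∑' d, gg N d) := by
  have h := EulerProduct.eulerProduct_hasProd (f := gg N) (gg_one N) (fun {m n} h => gg_mul N h)
    (gg_summable N) (gg_zero N)
  have h2 : (fun p : Nat.Primes => ∑' e : ℕ, gg N ((p : ℕ) ^ e))
      = fun p : Nat.Primes => if (p : ℕ) ∣ N then (1 : ℝ) else 1 - uu p := by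
    funext p
    have hp := p.2
    rw [tsum_eq_sum (s := {0, 1})]
    · rw [Finset.sum_pair (by norm_num), pow_zero, pow_one, gg_one]
      unfold gg
      by_cases hd : (p : ℕ) ∣ N
      · rw [if_pos hd, if_neg, add_zero]
        intro hc
        exact hp.one_lt.ne' (Nat.dvd_one.mp (by
          have := Nat.dvd_gcd hd (dvd_refl (p : ℕ))
          rwa [hc.gcd_eq_one] at this))
      · rw [if_neg hd, if_pos ((Nat.Prime.coprime_iff_not_dvd hp).mpr hd).symm, hh_prime hp]
        ring
    · intro k hk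
      have hk2 : 2 ≤ k := by
        simp only [Finset.mem_insert, Finset.mem_singleton, not_or] at hk
        omega
      unfold gg
      rw [hh_prime_pow hp hk2]
      simp
  rw [h2] at h
  exact h

theorem uu_pos {p : ℕ} (hp : p.Prime) : 0 < uu p := by
  have : (2 : ℝ) ≤ p := by exact_mod_cast hp.two_le
  unfold uu
  have : (0 : ℝ) < (p : ℝ) - 1 := by linarith
  positivity

theorem one_sub_uu_pos {p : ℕ} (hp : p.Prime) : 0 < 1 - uu p := by
  have : (2 : ℝ) ≤ p := by exact_mod_cast hp.two_le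
  unfold uu
  rw [sub_pos, div_lt_one (by nlinarith)]
  nlinarith

theorem gg_one_eq (d : ℕ) : gg 1 d = hh d := by
  unfold gg; rw [if_pos (Nat.coprime_one_left d)]

theorem hh_euler : HasProd (fun p : Nat.Primes => 1 - uu p) (∑' d, hh d) := by
  have h := gg_euler 1
  have h1 : (fun p : Nat.Primes => if (p : ℕ) ∣ 1 then (1 : ℝ) else 1 - uu p)
      = fun p : Nat.Primes => 1 - uu p := by
    funext p
    rw [if_neg]
    intro hd
    exact p.2.one_lt.ne' (Nat.dvd_one.mp hd)
  rw [h1] at h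
  have h2 : (∑' d, gg 1 d) = ∑' d, hh d := tsum_congr gg_one_eq
  rwa [h2] at h

theorem tprod_eq : ∏' p : Nat.Primes, (1 - 1 / (((p : ℕ) : ℝ) * (((p : ℕ) : ℝ) - 1)))
    = ∑' d, hh d := hh_euler.tprod_eq

/-- splitting off the primes dividing `N` -/
theorem split (N : ℕ) (hN : N ≠ 0) :
    (∑' d, hh d) = (∏ q ∈ N.primeFactors, (1 - uu q)) * ∑' d, gg N d := by
  have h1 := gg_euler N
  have h2 : HasProd (fun p : Nat.Primes => if (p : ℕ) ∣ N then 1 - uu p else (1 : ℝ))
      (∏ p ∈ (N.primeFactors.subtype Nat.Prime : Finset Nat.Primes),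
        (if (p : ℕ) ∣ N then 1 - uu p else (1 : ℝ))) := by
    apply hasProd_prod_of_ne_finset_one
    intro p hp
    rw [if_neg]
    intro hd
    exact hp (Finset.mem_subtype.mpr (Nat.mem_primeFactors.mpr ⟨p.2, hd, hN⟩))
  have h3 := h2.mul h1
  have h4 : (fun p : Nat.Primes => (if (p : ℕ) ∣ N then 1 - uu p else (1 : ℝ))
      * (if (p : ℕ) ∣ N then (1 : ℝ) else 1 - uu p)) = fun p : Nat.Primes => 1 - uu p := by
    funext p
    by_cases hd : (p : ℕ) ∣ N
    · rw [if_pos hd, if_pos hd, mul_one]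
    · rw [if_neg hd, if_neg hd, one_mul]
  rw [h4] at h3
  rw [hh_euler.unique h3]
  congr 1
  have h5 := Finset.prod_subtype_eq_prod_filter (s := N.primeFactors) (p := Nat.Prime)
    (f := fun l : ℕ => if l ∣ N then 1 - uu l else (1 : ℝ))
  refine h5.trans ?_
  rw [Finset.filter_true_of_mem (fun q hq => Nat.prime_of_mem_primeFactors hq)]
  apply Finset.prod_congr rfl
  intro q hq
  rw [if_pos (Nat.dvd_of_mem_primeFactors hq)]

/-- the sum over multiples of `N` -/
theorem sum_mult (N : ℕ) (hN : Squarefree N) :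
    (∑' d, if N ∣ d then hh d else 0) = hh N * ∑' d, gg N d := by
  have hN0 : N ≠ 0 := hN.ne_zero
  rw [← tsum_mul_left]
  have hinj : Function.Injective (fun e : ℕ => N * e) := fun a b h =>
    Nat.eq_of_mul_eq_mul_left (Nat.pos_of_ne_zero hN0) h
  rw [← hinj.tsum_eq (f := fun d => if N ∣ d then hh d else 0)]
  · apply tsum_congr
    intro e
    rw [if_pos (dvd_mul_right N e)]
    unfold gg
    by_cases h : Nat.Coprime N e
    · rw [if_pos h, hh_mul h]
    · rw [if_neg h, mul_zero, hh_not_sqf]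
      intro hs
      exact h (Nat.coprime_of_squarefree_mul hs)
  · intro d hd
    rw [Function.mem_support] at hd
    by_cases h : N ∣ d
    · obtain ⟨e, rfl⟩ := h
      exact ⟨e, rfl⟩
    · rw [if_neg h] at hd
      exact absurd rfl hd

theorem mult_prod (f : ℕ → ℝ) (h1 : f 1 = 1) (hm : ∀ m n, Nat.Coprime m n → f (m * n) = f m * f n)
    (s : Finset ℕ) (hs : ∀ p ∈ s, p.Prime) : f (∏ p ∈ s, p) = ∏ p ∈ s, f p := by
  classical
  induction s using Finset.induction_on with
  | empty => simpa using h1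
  | insert a s ha ih =>
    rw [Finset.prod_insert ha, Finset.prod_insert ha, hm, ih fun p hp => hs p (Finset.mem_insert_of_mem hp)]
    apply Nat.Coprime.prod_right
    intro p hp
    rw [Nat.coprime_primes (hs a (Finset.mem_insert_self a s)) (hs p (Finset.mem_insert_of_mem hp))]
    rintro rfl
    exact ha hp

theorem hh_eq_prod (N : ℕ) (hN : Squarefree N) : hh N = ∏ q ∈ N.primeFactors, (-uu q) := by
  have h := mult_prod hh hh_one (fun m n h => hh_mul h) N.primeFactors
    (fun p hp => Nat.prime_of_mem_primeFactors hp)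
  rw [Nat.prod_primeFactors_of_squarefree hN] at h
  rw [h]
  exact Finset.prod_congr rfl fun q hq => hh_prime (Nat.prime_of_mem_primeFactors hq)

theorem mu_eq_prod (N : ℕ) (hN : Squarefree N) :
    ((moebius N : ℤ) : ℝ) = ∏ _q ∈ N.primeFactors, (-1 : ℝ) := by
  have h := mult_prod (fun n => ((moebius n : ℤ) : ℝ)) (by simp) (fun m n h => by
    rw [isMultiplicative_moebius.map_mul_of_coprime h]; push_cast; rfl) N.primeFactors
    (fun p hp => Nat.prime_of_mem_primeFactors hp)
  rw [Nat.prod_primeFactors_of_squarefree hN] at h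
  rw [h]
  refine Finset.prod_congr rfl fun q hq => ?_
  rw [moebius_apply_prime (Nat.prime_of_mem_primeFactors hq)]
  norm_num

theorem ratio {q : ℕ} (hq : q.Prime) :
    -uu q = (1 - uu q) * (-(1 / ((q : ℝ) ^ 2 - (q : ℝ) - 1))) := by
  have h2 : (2 : ℝ) ≤ q := by exact_mod_cast hq.two_le
  have h3 : (q : ℝ) ^ 2 - q - 1 ≠ 0 := by nlinarith
  have h4 : (q : ℝ) - 1 ≠ 0 := by linarith
  have h5 : (q : ℝ) ≠ 0 := by linarith
  have h6 : 1 - uu q = ((q : ℝ) ^ 2 - q - 1) / ((q : ℝ) * ((q : ℝ) - 1)) := by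
    unfold uu
    field_simp
  rw [h6, mul_neg, div_mul_div_comm, mul_one, mul_comm ((q : ℝ) * ((q : ℝ) - 1)), ← div_div,
    div_self h3]
  rfl

/-- explicit form of the identity -/
theorem euler_dens_explicit (D : ℤ) (hD : Squarefree D) (hD1 : D % 4 = 1) :
    ∑' d : ℕ, ((moebius d : ℤ) : ℝ) / d *
      ((1 + (if 2 * D.natAbs ∣ d then 1 else 0)) / (Nat.totient d : ℝ)) = dens D := by
  have hsq : Squarefree D.natAbs := Int.squarefree_natAbs.mpr hD
  have hodd : Nat.Coprime 2 D.natAbs := by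
    rw [Nat.coprime_two_left, Int.natAbs_odd]
    exact Int.odd_iff.mpr (by omega)
  have hN : Squarefree (2 * D.natAbs) :=
    (Nat.squarefree_mul hodd).mpr ⟨Nat.prime_two.squarefree, hsq⟩
  set N := 2 * D.natAbs with hNdef
  have h1 : ∀ d : ℕ, ((moebius d : ℤ) : ℝ) / d *
      ((1 + (if N ∣ d then 1 else 0)) / (Nat.totient d : ℝ))
      = hh d + (if N ∣ d then hh d else 0) := by
    intro d
    unfold hh
    by_cases h : N ∣ d
    · rw [if_pos h, if_pos h]; ring
    · rw [if_neg h, if_neg h]; ring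
  have hs1 : Summable hh := hh_summable.of_norm
  have hs2 : Summable fun d => if N ∣ d then hh d else 0 := by
    apply Summable.of_norm
    refine Summable.of_nonneg_of_le (fun _ => norm_nonneg _) (fun d => ?_) hh_summable
    by_cases h : N ∣ d
    · rw [if_pos h]
    · rw [if_neg h, norm_zero]; exact norm_nonneg _
  rw [tsum_congr h1, hs1.tsum_add hs2, sum_mult N hN]
  have h2 : hh N * ∑' d, gg N d
      = (∏ q ∈ N.primeFactors, (-(1 / ((q : ℝ) ^ 2 - (q : ℝ) - 1)))) * ∑' d, hh d := by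
    rw [split N hN.ne_zero, hh_eq_prod N hN, ← mul_assoc, ← Finset.prod_mul_distrib]
    congr 1
    refine Finset.prod_congr rfl fun q hq => ?_
    rw [ratio (Nat.prime_of_mem_primeFactors hq)]; ring
  have h3 : N.primeFactors = insert 2 D.natAbs.primeFactors := by
    rw [hNdef, Nat.Coprime.primeFactors_mul hodd, Nat.Prime.primeFactors Nat.prime_two]
    rfl
  have h4 : (2 : ℕ) ∉ D.natAbs.primeFactors := by
    intro h
    have := Nat.dvd_of_mem_primeFactors h
    exact (Nat.Prime.coprime_iff_not_dvd Nat.prime_two).mp hodd this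
  have h5 : (∏ q ∈ N.primeFactors, (-(1 / ((q : ℝ) ^ 2 - (q : ℝ) - 1))))
      = - (((moebius D.natAbs : ℤ) : ℝ) * ∏ q ∈ D.natAbs.primeFactors,
        (1 / ((q : ℝ) ^ 2 - (q : ℝ) - 1))) := by
    rw [h3, Finset.prod_insert h4, mu_eq_prod _ hsq, ← Finset.prod_mul_distrib]
    have h6 : ∏ q ∈ D.natAbs.primeFactors, (-(1 / ((q : ℝ) ^ 2 - (q : ℝ) - 1)))
        = ∏ q ∈ D.natAbs.primeFactors, (-1 : ℝ) * (1 / ((q : ℝ) ^ 2 - (q : ℝ) - 1)) :=
      Finset.prod_congr rfl fun q _ => by ring
    rw [h6]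
    norm_num
  rw [h2, h5]
  unfold dens
  rw [tprod_eq]
  ring

end Euler

theorem euler_dens (D : ℤ) (hD : Squarefree D) (hD1 : D % 4 = 1) (_hD2 : D ≠ 1) :
    ∑' d : ℕ, ((ArithmeticFunction.moebius d : ℤ) : ℝ) / d * om D d = dens D :=
  Euler.euler_dens_explicit D hD hD1

end Pool.Agent.H730R2.AA
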