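import Mathlib
import Pool.Agent.H730R2.AA.Defs

set_option autoImplicit false

/-! # Expansion of the indicator of 'D m^2 is a primitive root mod p' in characters -/

namespace Pool.Agent.H730R2.AA

open Finset

namespace Exp

variable {p : ℕ} [Fact p.Prime]

/-- Fourier coefficient of a function on the units -/
noncomputable def fc (f : (ZMod p)ˣ → ℂ) (χ : DirichletCharacter ℂ p) : ℂ :=
  ((p - 1 : ℕ) : ℂ)⁻¹ * ∑ u : (ZMod p)ˣ, f u * χ ((u⁻¹ : (ZMod p)ˣ) : ZMod p)

lemma N_pos : 0 < p - 1 := Nat.sub_pos_of_lt (Fact.out (p := p.Prime)).one_lt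

lemma N_ne : ((p - 1 : ℕ) : ℂ) ≠ 0 := by
  exact_mod_cast (N_pos (p := p)).ne'

lemma card_G : Fintype.card (ZMod p)ˣ = p - 1 := by
  rw [ZMod.card_units_eq_totient, Nat.totient_prime Fact.out]

lemma fc_inv (f : (ZMod p)ˣ → ℂ) (a : (ZMod p)ˣ) :
    ∑ χ : DirichletCharacter ℂ p, fc f χ * χ (a : ZMod p) = f a := by
  classical
  have h1 : ∀ u : (ZMod p)ˣ, ∑ χ : DirichletCharacter ℂ p,
      χ ((u⁻¹ : (ZMod p)ˣ) : ZMod p) * χ (a : ZMod p) = if u = a then ((p - 1 : ℕ) : ℂ) else 0 := by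
    intro u
    have h := DirichletCharacter.sum_char_inv_mul_char_eq ℂ (n := p) (a := (u : ZMod p)) u.isUnit
      (a : ZMod p)
    rw [Nat.totient_prime Fact.out] at h
    rw [Units.val_inv_eq_inv_val, h]
    by_cases hua : u = a
    · simp [hua]
    · rw [if_neg hua, if_neg (fun h => hua (Units.ext h))]
  calc ∑ χ : DirichletCharacter ℂ p, fc f χ * χ (a : ZMod p)
      = ∑ χ : DirichletCharacter ℂ p, ∑ u : (ZMod p)ˣ, ((p - 1 : ℕ) : ℂ)⁻¹ * f u *
          (χ ((u⁻¹ : (ZMod p)ˣ) : ZMod p) * χ (a : ZMod p)) := by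
        refine sum_congr rfl fun χ _ => ?_
        unfold fc
        rw [mul_assoc, sum_mul, mul_sum]
        refine sum_congr rfl fun u _ => ?_
        ring
    _ = ∑ u : (ZMod p)ˣ, ((p - 1 : ℕ) : ℂ)⁻¹ * f u * (if u = a then ((p - 1 : ℕ) : ℂ) else 0) := by
        rw [sum_comm]
        refine sum_congr rfl fun u _ => ?_
        rw [← mul_sum, h1]
    _ = f a := by
        simp only [mul_ite, mul_zero, sum_ite_eq', mem_univ, if_true]
        rw [mul_comm _ (f a), mul_assoc, inv_mul_cancel₀ N_ne, mul_one]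

/-- indicator of the kernel of the `k`-th power map -/
noncomputable def ker1 (k : ℕ) (u : (ZMod p)ˣ) : ℂ := if u ^ k = 1 then 1 else 0

lemma fc_ker (k : ℕ) (χ : DirichletCharacter ℂ p) : ∃ r : ℝ, 0 ≤ r ∧ fc (ker1 k) χ = (r : ℂ) := by
  classical
  set K : Subgroup (ZMod p)ˣ := (powMonoidHom k : (ZMod p)ˣ →* (ZMod p)ˣ).ker with hK
  have hmem : ∀ u : (ZMod p)ˣ, u ∈ K ↔ u ^ k = 1 := fun u => by
    rw [hK, MonoidHom.mem_ker]; rfl
  set f : K →* ℂ :=
    { toFun := fun g => χ (((g : (ZMod p)ˣ)⁻¹ : (ZMod p)ˣ) : ZMod p)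
      map_one' := by simp
      map_mul' := by
        intro a b
        change χ ((((a : (ZMod p)ˣ) * (b : (ZMod p)ˣ))⁻¹ : (ZMod p)ˣ) : ZMod p) = _
        rw [mul_inv, Units.val_mul, map_mul] } with hf
  have hsum : ∑ u : (ZMod p)ˣ, ker1 k u * χ ((u⁻¹ : (ZMod p)ˣ) : ZMod p) = ∑ g : K, f g := by
    have h1 : ∑ u : (ZMod p)ˣ, ker1 k u * χ ((u⁻¹ : (ZMod p)ˣ) : ZMod p)
        = ∑ u ∈ univ.filter (fun u : (ZMod p)ˣ => u ∈ K), χ ((u⁻¹ : (ZMod p)ˣ) : ZMod p) := by
      rw [sum_filter]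
      refine sum_congr rfl fun u _ => ?_
      unfold ker1
      by_cases hu : u ^ k = 1
      · rw [if_pos hu, if_pos ((hmem u).2 hu), one_mul]
      · rw [if_neg hu, if_neg (fun h => hu ((hmem u).1 h)), zero_mul]
    rw [h1]
    symm
    refine sum_bij (fun (g : K) _ => (g : (ZMod p)ˣ)) ?_ ?_ ?_ ?_
    · intro g _; simp
    · intro a _ b _ h; exact Subtype.ext h
    · intro u hu; exact ⟨⟨u, (mem_filter.1 hu).2⟩, mem_univ _, rfl⟩
    · intro g _; rfl
  by_cases hf1 : f = 1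
  · refine ⟨((p - 1 : ℕ) : ℝ)⁻¹ * (Fintype.card K : ℝ), by positivity, ?_⟩
    unfold fc
    rw [hsum, hf1]
    simp
  · refine ⟨0, le_rfl, ?_⟩
    unfold fc
    rw [hsum, sum_hom_units_eq_zero f hf1, mul_zero, Complex.ofReal_zero]

lemma fc_ker_sum (k : ℕ) : ∑ χ : DirichletCharacter ℂ p, ‖fc (ker1 k) χ‖ = 1 := by
  choose r hr0 hr using fun χ : DirichletCharacter ℂ p => fc_ker k χ
  have h1 : ∀ χ, ‖fc (ker1 k) χ‖ = r χ := fun χ => by
    rw [hr, Complex.norm_real, Real.norm_of_nonneg (hr0 χ)]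
  have h2 := fc_inv (p := p) (ker1 k) 1
  simp only [Units.val_one, map_one, mul_one] at h2
  have h3 : ker1 (p := p) k 1 = 1 := by simp [ker1]
  rw [h3] at h2
  have h4 : ((∑ χ : DirichletCharacter ℂ p, r χ : ℝ) : ℂ) = 1 := by
    rw [Complex.ofReal_sum, ← h2]
    exact sum_congr rfl fun χ _ => (hr χ).symm
  rw [sum_congr rfl fun χ _ => h1 χ]
  exact_mod_cast h4

/-- indicator of the generators -/
noncomputable def gen (u : (ZMod p)ˣ) : ℂ := if orderOf u = p - 1 then 1 else 0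

lemma sum_moebius (n : ℕ) :
    ∑ d ∈ n.divisors, ArithmeticFunction.moebius d = if n = 1 then 1 else 0 := by
  rw [← ArithmeticFunction.coe_mul_zeta_apply, ArithmeticFunction.moebius_mul_coe_zeta,
    ArithmeticFunction.one_apply]

lemma gen_eq (u : (ZMod p)ˣ) : gen u = ∑ d ∈ (p - 1).divisors,
    ((ArithmeticFunction.moebius d : ℤ) : ℂ) * ker1 ((p - 1) / d) u := by
  classical
  have hN := N_pos (p := p)
  have hord : orderOf u ∣ p - 1 := by
    rw [← card_G]; exact orderOf_dvd_card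
  have hord0 : 0 < orderOf u := Nat.pos_of_dvd_of_pos hord hN
  obtain ⟨e, he⟩ := hord
  have he0 : 0 < e := by
    rcases Nat.eq_zero_or_pos e with h | h
    · rw [h] at he; omega
    · exact h
  have h1 : ∑ d ∈ (p - 1).divisors, ((ArithmeticFunction.moebius d : ℤ) : ℂ) *
      ker1 ((p - 1) / d) u = ∑ d ∈ e.divisors, ((ArithmeticFunction.moebius d : ℤ) : ℂ) := by
    symm
    rw [← sum_subset (s₁ := e.divisors) (s₂ := (p - 1).divisors)
      (f := fun d => ((ArithmeticFunction.moebius d : ℤ) : ℂ) * ker1 ((p - 1) / d) u)]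
    · refine sum_congr rfl fun d hd => ?_
      have hd' := Nat.dvd_of_mem_divisors hd
      obtain ⟨c, hc⟩ := hd'
      have hd0 : 0 < d := Nat.pos_of_mem_divisors hd
      have h2 : (p - 1) / d = orderOf u * c := by
        rw [he, hc]
        rw [show orderOf u * (d * c) = d * (orderOf u * c) by ring]
        exact Nat.mul_div_cancel_left _ hd0
      unfold ker1
      rw [h2, pow_mul, pow_orderOf_eq_one, one_pow, if_pos rfl, mul_one]
    · intro d hd
      rw [Nat.mem_divisors] at hd ⊢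
      exact ⟨hd.1.trans ⟨orderOf u, by rw [he]; ring⟩, hN.ne'⟩
    · intro d hd hde
      have hd' := Nat.dvd_of_mem_divisors hd
      have hd0 : 0 < d := Nat.pos_of_mem_divisors hd
      unfold ker1
      rw [if_neg, mul_zero]
      intro h
      apply hde
      rw [Nat.mem_divisors]
      refine ⟨?_, he0.ne'⟩
      have h3 := orderOf_dvd_of_pow_eq_one h
      obtain ⟨c, hc⟩ := h3
      have h4 : d * ((p - 1) / d) = p - 1 := Nat.mul_div_cancel' hd'
      rw [hc, he] at h4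
      refine ⟨c, ?_⟩
      have h5 : orderOf u * (d * c) = orderOf u * e := by rw [← h4]; ring
      exact (Nat.eq_of_mul_eq_mul_left hord0 h5).symm
  rw [h1]
  have h2 := sum_moebius e
  have h3 : (∑ d ∈ e.divisors, ((ArithmeticFunction.moebius d : ℤ) : ℂ))
      = ((∑ d ∈ e.divisors, ArithmeticFunction.moebius d : ℤ) : ℂ) := by
    push_cast; rfl
  rw [h3, h2]
  unfold gen
  by_cases hu : orderOf u = p - 1
  · have : e = 1 := by
      have : orderOf u * e = orderOf u * 1 := by rw [← he, mul_one, hu]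
      exact Nat.eq_of_mul_eq_mul_left hord0 this
    rw [if_pos hu, if_pos this]; simp
  · have : e ≠ 1 := by
      rintro rfl
      exact hu (by rw [he, mul_one])
    rw [if_neg hu, if_neg this]; simp

lemma fc_gen_sum : ∑ χ : DirichletCharacter ℂ p, ‖fc gen χ‖ ≤ ((p - 1).divisors.card : ℝ) := by
  have h1 : ∀ χ : DirichletCharacter ℂ p, fc gen χ = ∑ d ∈ (p - 1).divisors,
      ((ArithmeticFunction.moebius d : ℤ) : ℂ) * fc (ker1 ((p - 1) / d)) χ := by
    intro χ
    unfold fc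
    simp only [gen_eq, sum_mul, mul_sum]
    rw [sum_comm]
    refine sum_congr rfl fun d _ => sum_congr rfl fun u _ => ?_
    ring
  calc ∑ χ : DirichletCharacter ℂ p, ‖fc gen χ‖
      ≤ ∑ χ : DirichletCharacter ℂ p, ∑ d ∈ (p - 1).divisors, ‖fc (ker1 ((p - 1) / d)) χ‖ := by
        refine sum_le_sum fun χ _ => ?_
        rw [h1]
        refine (norm_sum_le _ _).trans (sum_le_sum fun d _ => ?_)
        rw [norm_mul]
        have h2 : ‖((ArithmeticFunction.moebius d : ℤ) : ℂ)‖ ≤ 1 := by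
          rw [Complex.norm_intCast]
          have := ArithmeticFunction.abs_moebius_le_one (n := d)
          exact_mod_cast this
        calc _ ≤ 1 * ‖fc (ker1 ((p - 1) / d)) χ‖ := by gcongr
          _ = _ := one_mul _
    _ = ∑ d ∈ (p - 1).divisors, ∑ χ : DirichletCharacter ℂ p, ‖fc (ker1 ((p - 1) / d)) χ‖ :=
        sum_comm
    _ = ((p - 1).divisors.card : ℝ) := by
        rw [sum_congr rfl fun d _ => fc_ker_sum ((p - 1) / d)]
        simp

lemma norm_fc_gen_le (χ : DirichletCharacter ℂ p) : ‖fc gen χ‖ ≤ 1 := by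
  unfold fc
  have hN : (0 : ℝ) < ((p - 1 : ℕ) : ℝ) := by exact_mod_cast N_pos (p := p)
  rw [norm_mul, norm_inv, Complex.norm_natCast]
  have h1 : ‖∑ u : (ZMod p)ˣ, gen u * χ ((u⁻¹ : (ZMod p)ˣ) : ZMod p)‖ ≤ ((p - 1 : ℕ) : ℝ) := by
    calc _ ≤ ∑ u : (ZMod p)ˣ, ‖gen u * χ ((u⁻¹ : (ZMod p)ˣ) : ZMod p)‖ := norm_sum_le _ _
      _ ≤ ∑ _u : (ZMod p)ˣ, (1 : ℝ) := by
        refine sum_le_sum fun u _ => ?_
        rw [norm_mul]
        have h2 : ‖gen u‖ ≤ 1 := by
          unfold gen; split_ifs <;> simp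
        have h3 := DirichletCharacter.norm_le_one χ ((u⁻¹ : (ZMod p)ˣ) : ZMod p)
        calc _ ≤ 1 * 1 := mul_le_mul h2 h3 (norm_nonneg _) zero_le_one
          _ = 1 := one_mul 1
      _ = _ := by rw [sum_const, card_univ, card_G]; simp
  calc _ ≤ (((p - 1 : ℕ) : ℝ))⁻¹ * ((p - 1 : ℕ) : ℝ) := by gcongr
    _ = 1 := inv_mul_cancel₀ hN.ne'

lemma card_gen : ((univ.filter (fun u : (ZMod p)ˣ => orderOf u = p - 1)).card) =
    Nat.totient (p - 1) := by
  classical
  exact IsCyclic.card_orderOf_eq_totient (by rw [card_G])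

lemma fc_gen_one : fc gen (1 : DirichletCharacter ℂ p) = ((rho p : ℝ) : ℂ) := by
  classical
  unfold fc rho
  have h1 : ∑ u : (ZMod p)ˣ, gen u * (1 : DirichletCharacter ℂ p) ((u⁻¹ : (ZMod p)ˣ) : ZMod p)
      = ((Nat.totient (p - 1) : ℕ) : ℂ) := by
    rw [← card_gen (p := p), card_filter, Nat.cast_sum]
    refine sum_congr rfl fun u _ => ?_
    rw [MulChar.one_apply_coe, mul_one]
    unfold gen
    split_ifs <;> simp
  rw [h1]
  push_cast
  rw [div_eq_mul_inv, mul_comm]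

lemma sq_eq_one_iff_of_side_cond {z : ℂ} (h : z ^ 2 = 1) : z = 1 ∨ z = -1 := by
  have : (z - 1) * (z + 1) = 0 := by ring_nf; rw [h]; ring
  rcases mul_eq_zero.1 this with h | h
  · left; exact sub_eq_zero.1 h
  · right; exact eq_neg_of_add_eq_zero_left h

lemma fc_gen_quad (χ : DirichletCharacter ℂ p) (h2 : χ ^ 2 = 1) (h1 : χ ≠ 1) :
    fc gen χ = -((rho p : ℝ) : ℂ) := by
  classical
  unfold fc rho
  have hs : ∑ u : (ZMod p)ˣ, gen u * χ ((u⁻¹ : (ZMod p)ˣ) : ZMod p)
      = -((Nat.totient (p - 1) : ℕ) : ℂ) := by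
    rw [← card_gen (p := p), card_filter, Nat.cast_sum, ← sum_neg_distrib]
    refine sum_congr rfl fun u _ => ?_
    unfold gen
    by_cases hu : orderOf u = p - 1
    · rw [if_pos hu, if_pos hu]
      have hgen : ∀ x : (ZMod p)ˣ, x ∈ Subgroup.zpowers (u⁻¹) := by
        rw [Subgroup.zpowers_inv]
        have h3 : orderOf u = Nat.card (ZMod p)ˣ := by
          rw [hu, Nat.card_eq_fintype_card, card_G]
        intro x
        have := Subgroup.eq_top_of_card_eq (Subgroup.zpowers u) (by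
          rw [Nat.card_zpowers, h3])
        rw [this]; trivial
      have h4 : χ ((u⁻¹ : (ZMod p)ˣ) : ZMod p) ^ 2 = 1 := by
        rw [← MulChar.pow_apply_coe, h2, MulChar.one_apply_coe]
      have h5 : χ ((u⁻¹ : (ZMod p)ˣ) : ZMod p) ≠ 1 := by
        intro h
        apply h1
        rw [MulChar.eq_iff hgen, h, MulChar.one_apply_coe]
      have h6 : χ ((u⁻¹ : (ZMod p)ˣ) : ZMod p) = -1 := by
        rcases sq_eq_one_iff_of_side_cond h4 with h | h
        · exact absurd h h5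
        · exact h
      rw [h6]; norm_num
    · rw [if_neg hu, if_neg hu, zero_mul, Nat.cast_zero, neg_zero]
  rw [hs]
  push_cast
  ring

/-- the quadratic character -/
noncomputable def qc (p : ℕ) [Fact p.Prime] : DirichletCharacter ℂ p :=
  (quadraticChar (ZMod p)).ringHomComp (Int.castRingHom ℂ)

lemma qc_apply (D : ℤ) : qc p (D : ZMod p) = ((jacobiSym D p : ℤ) : ℂ) := by
  unfold qc
  rw [MulChar.ringHomComp_apply, ← jacobiSym.legendreSym.to_jacobiSym]
  rfl

lemma exists_gen : ∃ g : (ZMod p)ˣ, ∀ x : (ZMod p)ˣ, x ∈ Subgroup.zpowers g :=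
  IsCyclic.exists_generator

lemma card_sqrt_le (ψ : DirichletCharacter ℂ p) :
    (univ.filter (fun χ : DirichletCharacter ℂ p => χ ^ 2 = ψ)).card ≤ 2 := by
  classical
  obtain ⟨g, hg⟩ := exists_gen (p := p)
  set s : ℂ := ψ (g : ZMod p) with hs
  have h1 : (univ.filter (fun χ : DirichletCharacter ℂ p => χ ^ 2 = ψ)).card ≤
      ((Polynomial.X ^ 2 - Polynomial.C s : Polynomial ℂ).roots.toFinset).card := by
    refine card_le_card_of_injOn (fun χ => χ (g : ZMod p)) ?_ ?_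
    · intro χ hχ
      have hχ' : χ ^ 2 = ψ := by simpa using hχ
      rw [mem_coe, Multiset.mem_toFinset, Polynomial.mem_roots (Polynomial.X_pow_sub_C_ne_zero
        (by norm_num) _), Polynomial.IsRoot.def]
      simp only [Polynomial.eval_sub, Polynomial.eval_pow, Polynomial.eval_X, Polynomial.eval_C]
      rw [hs, ← hχ', MulChar.pow_apply_coe, sub_self]
    · intro χ₁ _ χ₂ _ h
      exact (MulChar.eq_iff hg χ₁ χ₂).2 h
  refine h1.trans ((Multiset.toFinset_card_le _).trans ?_)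
  refine (Polynomial.card_roots' _).trans ?_
  rw [Polynomial.natDegree_X_pow_sub_C]

lemma qc_sq (hp : p ≠ 2) : (qc p) ^ 2 = 1 := by
  unfold qc
  have h := (quadraticChar_isQuadratic (ZMod p)).sq_eq_one
  rw [MulChar.ringHomComp_pow, h, MulChar.ringHomComp_one]

lemma qc_ne (hp : p ≠ 2) : qc p ≠ 1 := by
  unfold qc
  intro h
  have h1 := quadraticChar_ne_one (F := ZMod p) (by rwa [ZMod.ringChar_zmod_n])
  apply h1
  have h2 : (quadraticChar (ZMod p)).ringHomComp (Int.castRingHom ℂ) =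
      (1 : MulChar (ZMod p) ℤ).ringHomComp (Int.castRingHom ℂ) := by
    rw [h, MulChar.ringHomComp_one]
  exact MulChar.injective_ringHomComp (RingHom.injective_int _) h2

lemma sqrt_one (hp : p ≠ 2) [DecidableEq (DirichletCharacter ℂ p)] :
    univ.filter (fun χ : DirichletCharacter ℂ p => χ ^ 2 = 1) = {1, qc p} := by
  symm
  refine eq_of_subset_of_card_le ?_ ?_
  · intro χ hχ
    rw [mem_insert, mem_singleton] at hχ
    rcases hχ with rfl | rfl
    · simp
    · simp [qc_sq hp]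
  · rw [card_pair (qc_ne hp).symm]
    have := card_sqrt_le (p := p) 1
    convert this

end Exp

open Exp in
theorem expand (p : ℕ) [Fact p.Prime] (hp : p ≠ 2) (D : ℤ) (hD : ¬ ((p : ℤ) ∣ D)) :
    ∃ β : DirichletCharacter ℂ p → ℂ,
      (∀ m : ℕ, (if orderOf (((D * (m : ℤ) ^ 2 : ℤ)) : ZMod p) = p - 1 then (1 : ℂ) else 0) =
        (if p ∣ m then 0 else ((rho p * (1 - (jacobiSym D p : ℝ)) : ℝ) : ℂ)) +
        ∑ χ ∈ NT p, β χ * χ (m : ZMod p)) ∧
      (∑ χ, ‖β χ‖ ≤ ((p - 1).divisors.card : ℝ)) ∧ ∀ χ, ‖β χ‖ ≤ 2 := by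
  classical
  have hp1 : p ≠ 1 := (Fact.out (p := p.Prime)).one_lt.ne'
  have hN := N_pos (p := p)
  set β : DirichletCharacter ℂ p → ℂ := fun ψ =>
    ∑ χ ∈ univ.filter (fun χ : DirichletCharacter ℂ p => χ ^ 2 = ψ), fc gen χ * χ (D : ZMod p)
    with hβ
  have hterm : ∀ χ : DirichletCharacter ℂ p, ‖fc gen χ * χ (D : ZMod p)‖ ≤ ‖fc gen χ‖ := by
    intro χ
    rw [norm_mul]
    have := DirichletCharacter.norm_le_one χ (D : ZMod p)
    calc _ ≤ ‖fc gen χ‖ * 1 := by gcongr
      _ = _ := mul_one _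
  refine ⟨β, ?_, ?_, ?_⟩
  · intro m
    -- total sum over all characters
    have htot : ∑ χ : DirichletCharacter ℂ p, fc gen χ * χ (D : ZMod p) * χ (m : ZMod p) ^ 2 =
        β 1 * (1 : DirichletCharacter ℂ p) (m : ZMod p) +
          ∑ χ ∈ NT p, β χ * χ (m : ZMod p) := by
      have h1 : ∑ χ : DirichletCharacter ℂ p, fc gen χ * χ (D : ZMod p) * χ (m : ZMod p) ^ 2 =
          ∑ ψ : DirichletCharacter ℂ p, β ψ * ψ (m : ZMod p) := by
        rw [← sum_fiberwise_of_maps_to (s := univ) (t := univ)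
          (g := fun χ : DirichletCharacter ℂ p => χ ^ 2) (fun _ _ => mem_univ _)]
        refine sum_congr rfl fun ψ _ => ?_
        rw [hβ, sum_mul]
        refine sum_congr rfl fun χ hχ => ?_
        have hχ' : χ ^ 2 = ψ := (mem_filter.1 hχ).2
        rw [← hχ', MulChar.pow_apply' χ two_ne_zero]
      rw [h1, ← add_sum_erase univ _ (mem_univ (1 : DirichletCharacter ℂ p))]
      congr 1
      refine sum_congr ?_ fun _ _ => rfl
      unfold NT
      ext χ
      simp
    have hβ1 : β 1 = ((rho p * (1 - (jacobiSym D p : ℝ)) : ℝ) : ℂ) := by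
      rw [hβ]
      simp only
      rw [sqrt_one hp, sum_pair (qc_ne hp).symm, fc_gen_one, fc_gen_quad _ (qc_sq hp) (qc_ne hp),
        qc_apply]
      have hu : IsUnit (D : ZMod p) := by
        rw [isUnit_iff_ne_zero, Ne, ZMod.intCast_zmod_eq_zero_iff_dvd]
        exact hD
      rw [MulChar.one_apply hu]
      push_cast
      ring
    by_cases hm : p ∣ m
    · have hm0 : (m : ZMod p) = 0 := (ZMod.natCast_eq_zero_iff m p).2 hm
      have h0 : ((D * (m : ℤ) ^ 2 : ℤ) : ZMod p) = 0 := by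
        push_cast
        rw [hm0]; ring
      have h1 : orderOf (0 : ZMod p) = 0 := by
        rw [orderOf_eq_zero_iff']
        intro n hn
        rw [zero_pow hn.ne']
        exact zero_ne_one
      rw [h0, h1, if_neg hN.ne, if_pos hm, zero_add]
      symm
      refine sum_eq_zero fun χ _ => ?_
      rw [hm0, MulChar.map_zero, mul_zero]
    · have hm0 : IsUnit (m : ZMod p) := by
        rw [isUnit_iff_ne_zero, Ne, ZMod.natCast_eq_zero_iff]
        exact hm
      have hu : IsUnit (D : ZMod p) := by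
        rw [isUnit_iff_ne_zero, Ne, ZMod.intCast_zmod_eq_zero_iff_dvd]
        exact hD
      obtain ⟨a, ha⟩ := hu.mul (hm0.pow 2)
      have h0 : ((D * (m : ℤ) ^ 2 : ℤ) : ZMod p) = (a : ZMod p) := by
        push_cast
        exact ha.symm
      have hinv := fc_inv (p := p) gen a
      have h2 : ∑ χ : DirichletCharacter ℂ p, fc gen χ * χ (a : ZMod p) =
          ∑ χ : DirichletCharacter ℂ p, fc gen χ * χ (D : ZMod p) * χ (m : ZMod p) ^ 2 := by
        refine sum_congr rfl fun χ _ => ?_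
        rw [ha, map_mul, map_pow]; ring
      rw [h2, htot, hβ1, MulChar.one_apply hm0, mul_one] at hinv
      rw [if_neg hm, hinv, h0, orderOf_units]
      rfl
  · calc ∑ ψ, ‖β ψ‖ ≤ ∑ ψ : DirichletCharacter ℂ p,
          ∑ χ ∈ univ.filter (fun χ : DirichletCharacter ℂ p => χ ^ 2 = ψ), ‖fc gen χ‖ := by
          refine sum_le_sum fun ψ _ => ?_
          exact (norm_sum_le _ _).trans (sum_le_sum fun χ _ => hterm χ)
      _ = ∑ χ : DirichletCharacter ℂ p, ‖fc gen χ‖ :=
          sum_fiberwise_of_maps_to (fun _ _ => mem_univ _) _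
      _ ≤ _ := fc_gen_sum
  · intro ψ
    calc ‖β ψ‖ ≤ ∑ χ ∈ univ.filter (fun χ : DirichletCharacter ℂ p => χ ^ 2 = ψ), (1 : ℝ) := by
          refine (norm_sum_le _ _).trans (sum_le_sum fun χ _ => ?_)
          exact (hterm χ).trans (norm_fc_gen_le χ)
      _ = ((univ.filter (fun χ : DirichletCharacter ℂ p => χ ^ 2 = ψ)).card : ℝ) := by simp
      _ ≤ 2 := by exact_mod_cast card_sqrt_le ψ

end Pool.Agent.H730R2.AA
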