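import Mathlib
import Pool.Agent.H730R2.AA.Defs
import Pool.Agent.H730R2.AA.Tau
import Pool.Agent.Helper112.MultLS

set_option autoImplicit false

/-! # The large sieve for `2r`-th powers of short character sums -/

namespace Pool.Agent.H730R2.AA

open Finset

lemma NT_prim (p : ℕ) (hp : p.Prime) (χ : DirichletCharacter ℂ p) (hχ : χ ∈ NT p) :
    χ.IsPrimitive := by
  have : NeZero p := ⟨hp.ne_zero⟩
  simp only [NT, mem_filter] at hχ
  rw [DirichletCharacter.isPrimitive_def]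
  rcases (Nat.dvd_prime hp).1 (DirichletCharacter.conductor_dvd_level χ) with h | h
  · exact absurd ((DirichletCharacter.eq_one_iff_conductor_eq_one (χ := χ)).2 h) hχ.2
  · exact h

theorem ls_primes (r M x : ℕ) (hr : 1 ≤ r) (hM : 1 ≤ M) (E : Finset ℕ) (hE : E ⊆ Icc 1 M) :
    ∑ p ∈ (Icc 1 x).filter Nat.Prime,
      ∑ χ ∈ NT p,
        ‖∑ m ∈ E, χ (m : ZMod p)‖ ^ (2 * r) ≤
      6 * ((M : ℝ) ^ r + (x : ℝ) ^ 2) * ((M : ℝ) * (1 + Real.log M) ^ (r - 1)) ^ r := by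
  classical
  obtain ⟨A, hA, hA2⟩ := moment r M hr hM E hE
  have h := Helper112.mult_large_sieve (M ^ r) x (fun n => (A n : ℂ))
  have h2 : ∑ n ∈ Icc 1 (M ^ r), ‖((A n : ℝ) : ℂ)‖ ^ 2 = ∑ n ∈ Icc 1 (M ^ r), A n ^ 2 := by
    apply sum_congr rfl
    intro n _
    rw [Complex.norm_real, Real.norm_eq_abs, sq_abs]
  rw [h2] at h
  have h3 : 6 * (((M ^ r : ℕ) : ℝ) + (x : ℝ) ^ 2) * ∑ n ∈ Icc 1 (M ^ r), A n ^ 2 ≤
      6 * ((M : ℝ) ^ r + (x : ℝ) ^ 2) * ((M : ℝ) * (1 + Real.log M) ^ (r - 1)) ^ r := by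
    push_cast
    exact mul_le_mul_of_nonneg_left hA2 (by positivity)
  refine le_trans (le_trans ?_ h) h3
  refine le_trans ?_ (sum_le_sum_of_subset_of_nonneg (filter_subset Nat.Prime (Icc 1 x)) ?_)
  · apply sum_le_sum
    intro p hp
    rw [mem_filter] at hp
    have hp2 := hp.2
    have : NeZero p := ⟨hp2.ne_zero⟩
    have h4 : (1 : ℝ) ≤ (p : ℝ) / (Nat.totient p : ℝ) := by
      rw [one_le_div (by exact_mod_cast Nat.totient_pos.2 hp2.pos)]
      exact_mod_cast Nat.totient_le p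
    calc ∑ χ ∈ NT p, ‖∑ m ∈ E, χ (m : ZMod p)‖ ^ (2 * r)
        ≤ ∑ χ ∈ (univ : Finset (DirichletCharacter ℂ p)).filter (fun χ => χ.IsPrimitive),
          ‖∑ m ∈ E, χ (m : ZMod p)‖ ^ (2 * r) := by
          apply sum_le_sum_of_subset_of_nonneg
          · intro χ hχ
            rw [mem_filter]
            exact ⟨mem_univ _, NT_prim p hp2 χ hχ⟩
          · intro _ _ _
            positivity
      _ = ∑ χ ∈ (univ : Finset (DirichletCharacter ℂ p)).filter (fun χ => χ.IsPrimitive),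
          ‖∑ n ∈ Icc 1 (M ^ r), (A n : ℂ) * χ (n : ZMod p)‖ ^ 2 := by
          apply sum_congr rfl
          intro χ _
          rw [← hA p χ, norm_pow, ← pow_mul, mul_comm]
      _ ≤ _ := by
          apply le_mul_of_one_le_left _ h4
          exact sum_nonneg fun _ _ => by positivity
  · intro p _ _
    apply mul_nonneg (by positivity)
    exact sum_nonneg fun _ _ => by positivity

/-- weighted form (Hölder) -/
theorem ls_weighted (r M x : ℕ) (hr : 1 ≤ r) (hM : 1 ≤ M) (hxM : (x : ℝ) ^ 2 ≤ (M : ℝ) ^ r)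
    (hx : 1 ≤ x) (E : Finset ℕ) (hE : E ⊆ Icc 1 M) (P : Finset ℕ)
    (hP : P ⊆ (Icc 1 x).filter Nat.Prime)
    (β : (p : ℕ) → DirichletCharacter ℂ p → ℝ) (hβ0 : ∀ p χ, 0 ≤ β p χ) (hβ2 : ∀ p χ, β p χ ≤ 2)
    (hβs : ∑ p ∈ P, ∑ χ ∈ NT p,
      β p χ ≤ x * (1 + Real.log x)) :
    ∑ p ∈ P, ∑ χ ∈ NT p,
      β p χ * ‖∑ m ∈ E, χ (m : ZMod p)‖ ≤
      24 * (x * (1 + Real.log x)) * (x : ℝ) ^ (-(1 : ℝ) / (2 * r)) *
        (M * (1 + Real.log M) ^ (((r : ℝ) - 1) / 2)) := by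
  classical
  have hr0 : (0 : ℝ) < 2 * r := by positivity
  have hr1 : (1 : ℝ) ≤ 2 * r := by
    have : (1 : ℝ) ≤ r := by exact_mod_cast hr
    linarith
  have hM0 : (1 : ℝ) ≤ M := by exact_mod_cast hM
  have hx0 : (1 : ℝ) ≤ x := by exact_mod_cast hx
  have hlM := Real.log_nonneg hM0
  have hlx := Real.log_nonneg hx0
  set L : ℝ := 1 + Real.log M with hL
  set S : ℝ := x * (1 + Real.log x) with hS
  have hL1 : 1 ≤ L := by linarith
  have hSx : (x : ℝ) ≤ S := by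
    rw [hS]
    nlinarith
  have hSpos : 0 < S := by linarith
  have H := Real.inner_le_weight_mul_Lp_of_nonneg (P.sigma NT) hr1
    (fun i => β i.1 i.2) (fun i => ‖∑ m ∈ E, i.2 (m : ZMod i.1)‖) (fun i => hβ0 _ _)
    (fun i => norm_nonneg _)
  rw [sum_sigma, sum_sigma, sum_sigma] at H
  refine H.trans ?_
  have h1 : (∑ p ∈ P, ∑ χ ∈ NT p, β p χ) ^ (1 - (2 * (r : ℝ))⁻¹) ≤ S ^ (1 - (2 * (r : ℝ))⁻¹) := by
    apply Real.rpow_le_rpow
    · exact sum_nonneg fun _ _ => sum_nonneg fun _ _ => hβ0 _ _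
    · exact hβs
    · have := inv_le_one_of_one_le₀ hr1
      linarith
  have h2 : ∑ p ∈ P, ∑ χ ∈ NT p, β p χ * ‖∑ m ∈ E, χ (m : ZMod p)‖ ^ (2 * (r : ℝ)) ≤
      24 * (M : ℝ) ^ r * ((M : ℝ) * L ^ (r - 1)) ^ r := by
    have h3 := ls_primes r M x hr hM E hE
    calc ∑ p ∈ P, ∑ χ ∈ NT p, β p χ * ‖∑ m ∈ E, χ (m : ZMod p)‖ ^ (2 * (r : ℝ))
        ≤ ∑ p ∈ P, ∑ χ ∈ NT p, 2 * ‖∑ m ∈ E, χ (m : ZMod p)‖ ^ (2 * r) := by
          apply sum_le_sum
          intro p _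
          apply sum_le_sum
          intro χ _
          have : ‖∑ m ∈ E, χ (m : ZMod p)‖ ^ (2 * (r : ℝ)) =
              ‖∑ m ∈ E, χ (m : ZMod p)‖ ^ (2 * r) := by
            rw [← Real.rpow_natCast]
            push_cast
            rfl
          rw [this]
          exact mul_le_mul_of_nonneg_right (hβ2 _ _) (by positivity)
      _ = 2 * ∑ p ∈ P, ∑ χ ∈ NT p, ‖∑ m ∈ E, χ (m : ZMod p)‖ ^ (2 * r) := by
          rw [mul_sum]
          apply sum_congr rfl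
          intro p _
          rw [mul_sum]
      _ ≤ 2 * ∑ p ∈ (Icc 1 x).filter Nat.Prime, ∑ χ ∈ NT p,
            ‖∑ m ∈ E, χ (m : ZMod p)‖ ^ (2 * r) := by
          apply mul_le_mul_of_nonneg_left _ (by norm_num)
          apply sum_le_sum_of_subset_of_nonneg hP
          intro _ _ _
          exact sum_nonneg fun _ _ => by positivity
      _ ≤ 2 * (6 * ((M : ℝ) ^ r + (x : ℝ) ^ 2) * ((M : ℝ) * L ^ (r - 1)) ^ r) :=
          mul_le_mul_of_nonneg_left h3 (by norm_num)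
      _ ≤ 2 * (6 * ((M : ℝ) ^ r + (M : ℝ) ^ r) * ((M : ℝ) * L ^ (r - 1)) ^ r) := by
          gcongr
      _ = _ := by ring
  have h3 : (∑ p ∈ P, ∑ χ ∈ NT p, β p χ * ‖∑ m ∈ E, χ (m : ZMod p)‖ ^ (2 * (r : ℝ))) ^
      (2 * (r : ℝ))⁻¹ ≤ 24 * (M * L ^ (((r : ℝ) - 1) / 2)) := by
    refine (Real.rpow_le_rpow ?_ h2 (by positivity)).trans ?_
    · refine sum_nonneg fun _ _ => sum_nonneg fun _ _ => mul_nonneg (hβ0 _ _) (by positivity)
    · have e1 : 24 * (M : ℝ) ^ r * ((M : ℝ) * L ^ (r - 1)) ^ r =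
          24 * ((M * L ^ (((r : ℝ) - 1) / 2)) ^ (2 * (r : ℝ))) := by
        have e2 : (L ^ (r - 1)) ^ r = (L ^ (((r : ℝ) - 1) / 2)) ^ (2 * (r : ℝ)) := by
          rw [← Real.rpow_mul (by linarith), ← pow_mul, ← Real.rpow_natCast]
          congr 1
          push_cast [Nat.cast_sub hr]
          ring
        have e3 : (M : ℝ) ^ (2 * (r : ℝ)) = (M : ℝ) ^ r * (M : ℝ) ^ r := by
          rw [← pow_add, ← Real.rpow_natCast]
          congr 1
          push_cast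
          ring
        rw [Real.mul_rpow (by linarith) (by positivity), e3, ← e2, mul_pow]
        ring
      rw [e1, Real.mul_rpow (by norm_num) (by positivity), ← Real.rpow_mul (by positivity)]
      rw [mul_inv_cancel₀ hr0.ne', Real.rpow_one]
      apply mul_le_mul_of_nonneg_right _ (by positivity)
      calc (24 : ℝ) ^ (2 * (r : ℝ))⁻¹ ≤ (24 : ℝ) ^ (1 : ℝ) := by
            apply Real.rpow_le_rpow_of_exponent_le (by norm_num)
            exact inv_le_one_of_one_le₀ hr1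
        _ = 24 := Real.rpow_one _
  have h4 : S ^ (1 - (2 * (r : ℝ))⁻¹) ≤ S * (x : ℝ) ^ (-(1 : ℝ) / (2 * r)) := by
    rw [sub_eq_add_neg, Real.rpow_add hSpos, Real.rpow_one]
    apply mul_le_mul_of_nonneg_left _ hSpos.le
    have : (-(1 : ℝ) / (2 * r)) = -(2 * (r : ℝ))⁻¹ := by
      rw [neg_div, one_div]
    rw [this]
    apply Real.rpow_le_rpow_of_nonpos (by linarith) hSx
    have : 0 ≤ (2 * (r : ℝ))⁻¹ := by positivity
    linarith
  calc _ ≤ (S * (x : ℝ) ^ (-(1 : ℝ) / (2 * r))) * (24 * (M * L ^ (((r : ℝ) - 1) / 2))) := by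
        apply mul_le_mul (h1.trans h4) h3
        · apply Real.rpow_nonneg
          refine sum_nonneg fun _ _ => sum_nonneg fun _ _ => mul_nonneg (hβ0 _ _) (by positivity)
        · positivity
    _ = _ := by ring

end Pool.Agent.H730R2.AA
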