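import Mathlib
import Pool.Agent.H730R2.AA.Defs
import Pool.Agent.H730R2.AA.WdDefs
import Pool.Agent.Helper923.PNTQ

set_option autoImplicit false

/-! # Limit of `Wd / π` (prime number theorem in residue classes) -/

namespace Pool.Agent.H730R2.AA

open Finset Filter Topology

theorem pc_pos (y : ℕ) (hy : 2 ≤ y) : 0 < Nat.primeCounting y := by
  have h1 : Nat.primeCounting 2 ≤ Nat.primeCounting y := Nat.monotone_primeCounting hy
  have h2 : Nat.primeCounting 2 = 1 := by decide
  omega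

section Classes

open ArithmeticFunction

/-- primes `≤ x` in the residue class `a mod N` -/
noncomputable def clsP (N : ℕ) (a : ZMod N) (x : ℕ) : Finset ℕ := by
  classical
  exact (Icc 1 x).filter (fun p : ℕ => p.Prime ∧ (p : ZMod N) = a)

theorem cls_lower (N : ℕ) (a : ZMod N) (y : ℕ) :
    ∑ k ∈ Finset.Icc 1 y, vonMangoldt.residueClass a k
      ≤ (clsP N a y).card * Real.log y + (Chebyshev.psi y - Chebyshev.theta y) := by
  classical
  have hpsi : Chebyshev.psi y = ∑ k ∈ Finset.Icc 1 y, vonMangoldt k := by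
    unfold Chebyshev.psi
    rw [Nat.floor_natCast]
    rfl
  have htheta : Chebyshev.theta y = ∑ k ∈ (Finset.Icc 1 y).filter Nat.Prime, Real.log k := by
    unfold Chebyshev.theta
    rw [Nat.floor_natCast]
    rfl
  rw [hpsi, htheta]
  have h1 : ∀ k ∈ Finset.Icc 1 y, vonMangoldt.residueClass a k
      ≤ (if k.Prime ∧ (k : ZMod N) = a then Real.log y else 0) +
        (vonMangoldt k - (if k.Prime then Real.log k else 0)) := by
    intro k hk
    rw [Finset.mem_Icc] at hk
    have hk1 : 1 ≤ k := hk.1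
    have hlogk : Real.log k ≤ Real.log y :=
      Real.log_le_log (by exact_mod_cast hk1) (by exact_mod_cast hk.2)
    by_cases hp : k.Prime
    · have hL : vonMangoldt k = Real.log k := vonMangoldt_apply_prime hp
      by_cases h4 : (k : ZMod N) = a
      · have : vonMangoldt.residueClass a k = vonMangoldt k := by
          unfold vonMangoldt.residueClass
          rw [Set.indicator_of_mem]
          exact h4
        rw [this, hL]
        simp only [hp, h4, and_self, if_true]
        linarith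
      · have : vonMangoldt.residueClass a k = 0 := by
          unfold vonMangoldt.residueClass
          rw [Set.indicator_of_notMem]
          exact fun h => h4 h
        rw [this, hL]
        simp [hp, h4]
    · have h2 : vonMangoldt.residueClass a k ≤ vonMangoldt k := vonMangoldt.residueClass_le _ k
      simp only [hp, false_and, if_false]
      linarith
  refine (Finset.sum_le_sum h1).trans ?_
  rw [Finset.sum_add_distrib, Finset.sum_sub_distrib, ← Finset.sum_filter, ← Finset.sum_filter]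
  refine add_le_add ?_ le_rfl
  rw [Finset.sum_const, nsmul_eq_mul]
  exact le_rfl

theorem cls_total (N : ℕ) [NeZero N] (x : ℕ) :
    ∑ u : (ZMod N)ˣ, ((clsP N (u : ZMod N) x).card : ℝ) ≤ Nat.primeCounting x := by
  classical
  have h : ∑ u : (ZMod N)ˣ, (clsP N (u : ZMod N) x).card ≤ Nat.primeCounting x := by
    rw [← Finset.card_biUnion]
    · have e : Nat.primeCounting x = ((Icc 1 x).filter Nat.Prime).card := by
        rw [Nat.primeCounting, Nat.primeCounting', Nat.count_eq_card_filter_range]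
        congr 1
        ext p
        simp only [Finset.mem_filter, Finset.mem_range, Finset.mem_Icc]
        constructor
        · rintro ⟨h1, h2⟩
          exact ⟨⟨h2.one_lt.le, by omega⟩, h2⟩
        · rintro ⟨⟨h1, h3⟩, h2⟩
          exact ⟨by omega, h2⟩
      rw [e]
      apply Finset.card_le_card
      intro p hp
      rw [Finset.mem_biUnion] at hp
      obtain ⟨u, -, hu⟩ := hp
      rw [clsP, Finset.mem_filter] at hu
      rw [Finset.mem_filter]
      exact ⟨hu.1, hu.2.1⟩
    · intro u _ v _ huv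
      change Disjoint (clsP N (u : ZMod N) x) (clsP N (v : ZMod N) x)
      rw [Finset.disjoint_left]
      intro p hp hq
      rw [clsP, Finset.mem_filter] at hp hq
      apply huv
      exact Units.ext (hp.2.2.symm.trans hq.2.2)
  exact_mod_cast h

theorem psi_theta_nat :
    Tendsto (fun y : ℕ => (Chebyshev.psi y - Chebyshev.theta y) / (y : ℝ)) atTop (𝓝 0) := by
  have h4 : Tendsto (fun x : ℝ => (Chebyshev.psi x - Chebyshev.theta x) / x) atTop (𝓝 0) := by
    have := Pool.Agent.Helper923.H403.PNT602.psi_div_tendsto.sub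
      Pool.Agent.Helper923.H403.PNT602.theta_div_tendsto
    rw [sub_self] at this
    refine this.congr fun x => ?_
    ring
  exact h4.comp tendsto_natCast_atTop_atTop

/-- lower comparison function for a class -/
noncomputable def gcl (N : ℕ) (a : ZMod N) (y : ℕ) : ℝ :=
  (∑ k ∈ Finset.Icc 1 y, vonMangoldt.residueClass a k - (Chebyshev.psi y - Chebyshev.theta y)) /
    (Real.log y * Nat.primeCounting y)

theorem gcl_tendsto (N : ℕ) [NeZero N] (a : ZMod N) (ha : IsUnit a) :
    Tendsto (gcl N a) atTop (𝓝 ((N.totient : ℝ)⁻¹)) := by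
  have h0 := (Pool.Agent.Helper923.H403.PNT602.pnt_residueClass ha).comp
    (tendsto_natCast_atTop_atTop (R := ℝ))
  have h1 := h0.sub psi_theta_nat
  rw [sub_zero] at h1
  have h2 := (Pool.Agent.Helper923.H403.PNT602.pi_tendsto.comp
    (tendsto_natCast_atTop_atTop (R := ℝ))).inv₀ one_ne_zero
  have h3 := h1.mul h2
  rw [inv_one, mul_one] at h3
  refine h3.congr' ?_
  filter_upwards [eventually_ge_atTop 2] with y hy
  have hy0 : (0 : ℝ) < y := by exact_mod_cast (show 0 < y by omega)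
  have hl : 0 < Real.log y := Real.log_pos (by exact_mod_cast (show 1 < y by omega))
  simp only [Function.comp, Nat.floor_natCast, gcl]
  have hp : (0 : ℝ) < Nat.primeCounting y := by
    have : 0 < Nat.primeCounting y := pc_pos y hy
    exact_mod_cast this
  field_simp

theorem gcl_le (N : ℕ) (a : ZMod N) (y : ℕ) (hy : 2 ≤ y) :
    gcl N a y ≤ ((clsP N a y).card : ℝ) / Nat.primeCounting y := by
  have hl : 0 < Real.log y := Real.log_pos (by exact_mod_cast (show 1 < y by omega))
  have hp : (0 : ℝ) < Nat.primeCounting y := by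
    have : 0 < Nat.primeCounting y := pc_pos y hy
    exact_mod_cast this
  rw [gcl, div_le_div_iff₀ (by positivity) hp]
  have h := cls_lower N a y
  nlinarith

theorem cls_tendsto (N : ℕ) [NeZero N] (a : (ZMod N)ˣ) :
    Tendsto (fun x : ℕ => ((clsP N (a : ZMod N) x).card : ℝ) / Nat.primeCounting x) atTop
      (𝓝 ((N.totient : ℝ)⁻¹)) := by
  classical
  have hup : Tendsto (fun x : ℕ => 1 - ∑ b ∈ (Finset.univ.erase a : Finset (ZMod N)ˣ),
      gcl N (b : ZMod N) x) atTop (𝓝 ((N.totient : ℝ)⁻¹)) := by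
    have h1 : Tendsto (fun x : ℕ => ∑ b ∈ (Finset.univ.erase a : Finset (ZMod N)ˣ),
        gcl N (b : ZMod N) x) atTop
        (𝓝 (∑ b ∈ (Finset.univ.erase a : Finset (ZMod N)ˣ), ((N.totient : ℝ)⁻¹))) :=
      tendsto_finsetSum _ fun b _ => gcl_tendsto N b b.isUnit
    have h2 := h1.const_sub 1
    have e : 1 - ∑ b ∈ (Finset.univ.erase a : Finset (ZMod N)ˣ), ((N.totient : ℝ)⁻¹) =
        ((N.totient : ℝ)⁻¹) := by
      rw [Finset.sum_const, Finset.card_erase_of_mem (Finset.mem_univ a), Finset.card_univ,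
        ZMod.card_units_eq_totient, nsmul_eq_mul]
      have hpos : 0 < N.totient := Nat.totient_pos.2 (NeZero.pos N)
      rw [Nat.cast_sub hpos]
      have : (0 : ℝ) < N.totient := by exact_mod_cast hpos
      field_simp
      push_cast
      ring
    rw [e] at h2
    exact h2
  refine tendsto_of_tendsto_of_tendsto_of_le_of_le' (gcl_tendsto N a a.isUnit) hup ?_ ?_
  · filter_upwards [eventually_ge_atTop 2] with x hx
    exact gcl_le N a x hx
  · filter_upwards [eventually_ge_atTop 2] with x hx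
    have hp : (0 : ℝ) < Nat.primeCounting x := by
      have : 0 < Nat.primeCounting x := pc_pos x hx
      exact_mod_cast this
    have h1 := cls_total N x
    rw [← Finset.add_sum_erase _ _ (Finset.mem_univ a)] at h1
    have h2 : ∑ b ∈ (Finset.univ.erase a : Finset (ZMod N)ˣ), gcl N (b : ZMod N) x ≤
        (∑ b ∈ (Finset.univ.erase a : Finset (ZMod N)ˣ), ((clsP N (b : ZMod N) x).card : ℝ)) /
          Nat.primeCounting x := by
      rw [Finset.sum_div]
      exact Finset.sum_le_sum fun b _ => gcl_le N b x hx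
    have h3 : ((clsP N (a : ZMod N) x).card : ℝ) / Nat.primeCounting x +
        (∑ b ∈ (Finset.univ.erase a : Finset (ZMod N)ˣ), ((clsP N (b : ZMod N) x).card : ℝ)) /
          Nat.primeCounting x ≤ 1 := by
      rw [← add_div, div_le_one hp]
      exact h1
    linarith

end Classes

section Weighted

theorem pc_atTop : Tendsto (fun x : ℕ => (Nat.primeCounting x : ℝ)) atTop atTop :=
  tendsto_natCast_atTop_atTop.comp Nat.tendsto_primeCounting

theorem wsum_eq (N : ℕ) [NeZero N] (w : ZMod N → ℝ) (x : ℕ) :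
    ∑ u : (ZMod N)ˣ, w (u : ZMod N) * ((clsP N (u : ZMod N) x).card : ℝ) =
      ∑ p ∈ (Icc 1 x).filter (fun p : ℕ => p.Prime ∧ p.Coprime N), w (p : ZMod N) := by
  classical
  have h1 : ∀ u : (ZMod N)ˣ, w (u : ZMod N) * ((clsP N (u : ZMod N) x).card : ℝ) =
      ∑ p ∈ clsP N (u : ZMod N) x, w (p : ZMod N) := by
    intro u
    rw [Finset.sum_congr rfl (g := fun _ => w (u : ZMod N))]
    · rw [Finset.sum_const, nsmul_eq_mul, mul_comm]
    · intro p hp
      rw [clsP, Finset.mem_filter] at hp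
      rw [hp.2.2]
  rw [Finset.sum_congr rfl fun u _ => h1 u, ← Finset.sum_biUnion]
  · refine Finset.sum_congr ?_ fun _ _ => rfl
    ext p
    simp only [Finset.mem_biUnion, Finset.mem_univ, true_and, clsP, Finset.mem_filter,
      Finset.mem_Icc]
    constructor
    · rintro ⟨u, h2, h3, h4⟩
      refine ⟨h2, h3, ?_⟩
      rw [← ZMod.isUnit_iff_coprime, h4]
      exact u.isUnit
    · rintro ⟨h2, h3, h4⟩
      rw [← ZMod.isUnit_iff_coprime] at h4
      obtain ⟨u, hu⟩ := h4
      exact ⟨u, h2, h3, hu.symm⟩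
  · intro u _ v _ huv
    change Disjoint (clsP N (u : ZMod N) x) (clsP N (v : ZMod N) x)
    rw [Finset.disjoint_left]
    intro p hp hq
    rw [clsP, Finset.mem_filter] at hp hq
    apply huv
    exact Units.ext (hp.2.2.symm.trans hq.2.2)

theorem wsum_tendsto (D : ℤ) (hD0 : D ≠ 0) (N : ℕ) [NeZero N] (w : ZMod N → ℝ) :
    Tendsto (fun x : ℕ => (∑ p ∈ PR D x, w (p : ZMod N)) / (Nat.primeCounting x : ℝ)) atTop
      (𝓝 ((∑ u : (ZMod N)ˣ, w (u : ZMod N)) / (N.totient : ℝ))) := by
  classical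
  set F : Finset ℕ := Finset.range (N * 2 * D.natAbs + 1) with hF
  set C : ℝ := ∑ p ∈ F, |w (p : ZMod N)| with hC
  have hN0 : 0 < N := NeZero.pos N
  have hDn : 0 < D.natAbs := Int.natAbs_pos.2 hD0
  have hbd : ∀ x : ℕ, |(∑ p ∈ PR D x, w (p : ZMod N)) -
      ∑ u : (ZMod N)ˣ, w (u : ZMod N) * ((clsP N (u : ZMod N) x).card : ℝ)| ≤ 2 * C := by
    intro x
    rw [wsum_eq]
    set S1 := PR D x with hS1
    set S2 := (Icc 1 x).filter (fun p : ℕ => p.Prime ∧ p.Coprime N) with hS2
    rw [← Finset.sum_sdiff_sub_sum_sdiff]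
    have b1 : S1 \ S2 ⊆ F := by
      intro p hp
      rw [Finset.mem_sdiff, hS1, hS2, PR, Finset.mem_filter, Finset.mem_filter, Finset.mem_range,
        Finset.mem_Icc] at hp
      obtain ⟨⟨h1, h2, h3, h4⟩, h5⟩ := hp
      rw [hF, Finset.mem_range]
      have h6 : ¬ p.Coprime N := by
        intro h
        exact h5 ⟨⟨h2.one_lt.le, by omega⟩, h2, h⟩
      have h7 : p ∣ N := by
        by_contra h
        exact h6 ((Nat.Prime.coprime_iff_not_dvd h2).2 h)
      have h8 : p ≤ N := Nat.le_of_dvd hN0 h7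
      nlinarith [Nat.mul_le_mul (Nat.le_refl N) hDn]
    have b2 : S2 \ S1 ⊆ F := by
      intro p hp
      rw [Finset.mem_sdiff, hS1, hS2, PR, Finset.mem_filter, Finset.mem_filter, Finset.mem_range,
        Finset.mem_Icc] at hp
      obtain ⟨⟨⟨h1, h2⟩, h3, h4⟩, h5⟩ := hp
      rw [hF, Finset.mem_range]
      have h6 : p = 2 ∨ (p : ℤ) ∣ D := by
        by_contra h
        push Not at h
        exact h5 ⟨by omega, h3, h.1, h.2⟩
      rcases h6 with h6 | h6
      · subst h6
        nlinarith [Nat.mul_le_mul hN0 hDn]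
      · have h7 : p ∣ D.natAbs := Int.natCast_dvd.1 h6
        have h8 : p ≤ D.natAbs := Nat.le_of_dvd hDn h7
        nlinarith [Nat.mul_le_mul hN0 (Nat.le_refl D.natAbs)]
    have c1 : |∑ p ∈ S1 \ S2, w (p : ZMod N)| ≤ C :=
      (Finset.abs_sum_le_sum_abs _ _).trans
        (Finset.sum_le_sum_of_subset_of_nonneg b1 fun _ _ _ => abs_nonneg _)
    have c2 : |∑ p ∈ S2 \ S1, w (p : ZMod N)| ≤ C :=
      (Finset.abs_sum_le_sum_abs _ _).trans
        (Finset.sum_le_sum_of_subset_of_nonneg b2 fun _ _ _ => abs_nonneg _)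
    calc _ ≤ |∑ p ∈ S1 \ S2, w (p : ZMod N)| + |∑ p ∈ S2 \ S1, w (p : ZMod N)| := abs_sub _ _
      _ ≤ 2 * C := by linarith
  have h1 : Tendsto (fun x : ℕ => (∑ u : (ZMod N)ˣ,
      w (u : ZMod N) * ((clsP N (u : ZMod N) x).card : ℝ)) / (Nat.primeCounting x : ℝ)) atTop
      (𝓝 ((∑ u : (ZMod N)ˣ, w (u : ZMod N)) / (N.totient : ℝ))) := by
    have h2 : Tendsto (fun x : ℕ => ∑ u : (ZMod N)ˣ, w (u : ZMod N) *
        (((clsP N (u : ZMod N) x).card : ℝ) / (Nat.primeCounting x : ℝ))) atTop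
        (𝓝 (∑ u : (ZMod N)ˣ, w (u : ZMod N) * ((N.totient : ℝ)⁻¹))) :=
      tendsto_finsetSum _ fun u _ => (cls_tendsto N u).const_mul _
    rw [← Finset.sum_mul, ← div_eq_mul_inv] at h2
    refine h2.congr fun x => ?_
    rw [Finset.sum_div]
    exact Finset.sum_congr rfl fun u _ => by ring
  have h3 : Tendsto (fun x : ℕ => ((∑ p ∈ PR D x, w (p : ZMod N)) -
      ∑ u : (ZMod N)ˣ, w (u : ZMod N) * ((clsP N (u : ZMod N) x).card : ℝ)) /
        (Nat.primeCounting x : ℝ)) atTop (𝓝 0) := by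
    have h4 : Tendsto (fun x : ℕ => 2 * C / (Nat.primeCounting x : ℝ)) atTop (𝓝 0) :=
      pc_atTop.const_div_atTop _
    refine squeeze_zero_norm (fun x => ?_) h4
    rw [Real.norm_eq_abs, abs_div, Nat.abs_cast]
    exact div_le_div_of_nonneg_right (hbd x) (Nat.cast_nonneg _)
  have h5 := h3.add h1
  rw [zero_add] at h5
  refine h5.congr fun x => ?_
  ring

end Weighted

section Jac

theorem jmod (k N n : ℕ) (h : n ∣ N) :
    jacobiSym ((k % N : ℕ) : ℤ) n = jacobiSym (k : ℤ) n := by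
  rw [jacobiSym.mod_left, jacobiSym.mod_left (k : ℤ)]
  congr 1
  push_cast
  exact Int.emod_emod_of_dvd _ (by exact_mod_cast h)

theorem recip (D : ℤ) (hD1 : D % 4 = 1) (p : ℕ) (hp : p.Prime) (hp2 : p ≠ 2) :
    jacobiSym D p = jacobiSym (p : ℤ) D.natAbs := by
  have hodd : Odd p := hp.odd_of_ne_two hp2
  rcases le_or_gt 0 D with h | h
  · obtain ⟨n, rfl⟩ := Int.eq_ofNat_of_zero_le h
    rw [Int.natAbs_natCast]
    exact jacobiSym.quadratic_reciprocity_one_mod_four (by omega) hodd
  · obtain ⟨n, hn⟩ := Int.eq_ofNat_of_zero_le (show 0 ≤ -D by omega)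
    have hD : D = -(n : ℤ) := by omega
    subst hD
    have hn4 : n % 4 = 3 := by omega
    have e : (-(n : ℤ)).natAbs = n := by simp
    rw [e, jacobiSym.neg _ hodd]
    have hnodd : Odd n := Nat.odd_iff.2 (by omega)
    have hp4 : p % 4 = 1 ∨ p % 4 = 3 := by
      have := Nat.odd_iff.1 hodd
      omega
    rcases hp4 with h4 | h4
    · rw [ZMod.χ₄_nat_one_mod_four h4, one_mul]
      exact (jacobiSym.quadratic_reciprocity_one_mod_four h4 hnodd).symm
    · rw [ZMod.χ₄_nat_three_mod_four h4, jacobiSym.quadratic_reciprocity_three_mod_four hn4 h4]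
      ring

theorem exists_prime_not_dvd (n d : ℕ) (hn : Squarefree n) (h : ¬ n ∣ d) :
    ∃ q : ℕ, q.Prime ∧ q ∣ n ∧ ¬ q ∣ d := by
  by_contra hc
  push Not at hc
  apply h
  rw [← Nat.prod_primeFactors_of_squarefree hn]
  apply Finset.prod_primes_dvd
  · intro p hp
    exact (Nat.prime_of_mem_primeFactors hp).prime
  · intro p hp
    exact hc p (Nat.prime_of_mem_primeFactors hp) (Nat.dvd_of_mem_primeFactors hp)

/-- a class `≡ 1 mod d` with character value `-1` -/
theorem exists_neg (n d : ℕ) (hn : Squarefree n) (hodd : Odd n) (h : ¬ n ∣ d) :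
    ∃ k : ℕ, k.Coprime (d * n) ∧ k % d = 1 % d ∧ jacobiSym (k : ℤ) n = -1 := by
  obtain ⟨q, hq, hqn, hqd⟩ := exists_prime_not_dvd n d hn h
  have : Fact q.Prime := ⟨hq⟩
  obtain ⟨m, rfl⟩ := hqn
  have hqm : ¬ q ∣ m := by
    rintro ⟨c, rfl⟩
    have := hn q ⟨c, by ring⟩
    exact hq.one_lt.ne' (Nat.isUnit_iff.1 this)
  have hq2 : q ≠ 2 := by
    rintro rfl
    have := Nat.odd_iff.1 hodd
    omega
  have hm0 : m ≠ 0 := by
    rintro rfl
    simp at hqm
  obtain ⟨b, hb⟩ := FiniteField.exists_nonsquare (F := ZMod q) (by rwa [ZMod.ringChar_zmod_n])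
  have hcop : q.Coprime (d * m) := by
    rw [Nat.Prime.coprime_iff_not_dvd hq]
    intro h'
    rcases hq.dvd_mul.1 h' with h' | h'
    · exact hqd h'
    · exact hqm h'
  obtain ⟨k, hk1, hk2⟩ := Nat.chineseRemainder hcop b.val 1
  have hb0 : b ≠ 0 := by
    rintro rfl
    exact hb ⟨0, by simp⟩
  have hkb : ((k : ℕ) : ZMod q) = b := by
    have h1 : ((k : ℕ) : ZMod q) = ((b.val : ℕ) : ZMod q) := (ZMod.natCast_eq_natCast_iff _ _ _).2 hk1
    rw [h1, ZMod.natCast_zmod_val]
  have hkq : ¬ q ∣ k := by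
    intro h'
    rw [← ZMod.natCast_eq_zero_iff, hkb] at h'
    exact hb0 h'
  have hkm : k.Coprime (d * m) := by
    have : Nat.gcd k (d * m) = Nat.gcd 1 (d * m) := hk2.gcd_eq
    rw [Nat.Coprime, this, Nat.gcd_one_left]
  refine ⟨k, ?_, ?_, ?_⟩
  · rw [show d * (q * m) = q * (d * m) by ring]
    exact Nat.Coprime.mul_right ((Nat.Prime.coprime_iff_not_dvd hq).2 hkq).symm hkm
  · exact (hk2.of_mul_right m : k ≡ 1 [MOD d])
  · have hq0 : NeZero q := ⟨hq.ne_zero⟩
    have hm0' : NeZero m := ⟨hm0⟩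
    rw [jacobiSym.mul_right]
    have h1 : jacobiSym (k : ℤ) m = 1 := by
      have h2 : k % m = 1 % m := (hk2.of_mul_left d : k ≡ 1 [MOD m])
      rw [jacobiSym.mod_left]
      have h3 : ((k : ℤ) % (m : ℤ)) = (1 : ℤ) % (m : ℤ) := by exact_mod_cast h2
      rw [h3, ← jacobiSym.mod_left, jacobiSym.one_left]
    have h2 : jacobiSym (k : ℤ) q = -1 := by
      rw [← jacobiSym.legendreSym.to_jacobiSym, legendreSym.eq_neg_one_iff]
      push_cast
      rw [hkb]
      exact hb
    rw [h1, h2, mul_one]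

end Jac

section Units

/-- the character value of a unit -/
noncomputable def chiU (N n : ℕ) (u : (ZMod N)ˣ) : ℤ := jacobiSym ((u : ZMod N).val : ℤ) n

theorem chiU_mul (N n : ℕ) [NeZero N] (h : n ∣ N) (u v : (ZMod N)ˣ) :
    chiU N n (u * v) = chiU N n u * chiU N n v := by
  unfold chiU
  rw [Units.val_mul, ZMod.val_mul, jmod _ _ _ h, Nat.cast_mul, jacobiSym.mul_left]

/-- the units congruent to `1` modulo `d` -/
noncomputable def ker1 (N d : ℕ) [NeZero N] : Finset (ZMod N)ˣ := by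
  classical
  exact Finset.univ.filter (fun u => (u : ZMod N).val % d = 1 % d)

theorem mem_ker1 (N d : ℕ) [NeZero N] (h : d ∣ N) (u : (ZMod N)ˣ) :
    u ∈ ker1 N d ↔ ZMod.unitsMap h u = 1 := by
  rw [ker1, Finset.mem_filter]
  have hd : NeZero d := ⟨fun h0 => by
    subst h0
    exact NeZero.ne N (Nat.eq_zero_of_zero_dvd h)⟩
  rw [Units.ext_iff, ZMod.unitsMap_val, Units.val_one]
  have e : (ZMod.cast (u : ZMod N) : ZMod d) = (((u : ZMod N).val : ℕ) : ZMod d) := by
    rw [ZMod.cast_eq_val]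
  rw [e]
  constructor
  · rintro ⟨-, h1⟩
    have h2 := (ZMod.natCast_eq_natCast_iff' (u : ZMod N).val 1 d).2 h1
    rw [h2, Nat.cast_one]
  · intro h1
    refine ⟨Finset.mem_univ _, ?_⟩
    rw [← ZMod.natCast_eq_natCast_iff', h1, Nat.cast_one]

theorem ker1_card (N d : ℕ) [NeZero N] (h : d ∣ N) :
    (ker1 N d).card * d.totient = N.totient := by
  classical
  have hd : NeZero d := ⟨fun h0 => by
    subst h0
    exact NeZero.ne N (Nat.eq_zero_of_zero_dvd h)⟩
  set f := ZMod.unitsMap h with hf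
  have hs : Function.Surjective f := ZMod.unitsMap_surjective h
  have h1 : Nat.card f.ker * f.ker.index = Nat.card (ZMod N)ˣ := Subgroup.card_mul_index _
  rw [Subgroup.index_ker, MonoidHom.range_eq_top.2 hs] at h1
  have h2 : Nat.card (⊤ : Subgroup (ZMod d)ˣ) = d.totient := by
    rw [Subgroup.card_top, Nat.card_eq_fintype_card, ZMod.card_units_eq_totient]
  have h3 : Nat.card (ZMod N)ˣ = N.totient := by
    rw [Nat.card_eq_fintype_card, ZMod.card_units_eq_totient]
  have h4 : Nat.card f.ker = (ker1 N d).card := by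
    rw [Nat.card_eq_fintype_card, Fintype.card_subtype]
    congr 1
    ext u
    rw [Finset.mem_filter, mem_ker1 N d h, MonoidHom.mem_ker, hf]
    simp
  rw [h2, h3, h4] at h1
  exact h1

theorem chi_sum_one (d n : ℕ) [NeZero (d * n)] (h : n ∣ d) (u : (ZMod (d * n))ˣ)
    (hu : u ∈ ker1 (d * n) d) : chiU (d * n) n u = 1 := by
  rw [ker1, Finset.mem_filter] at hu
  have hn : NeZero n := ⟨fun h0 => by
    subst h0
    exact NeZero.ne (d * 0) (by simp)⟩
  have h1 : ((u : ZMod (d * n)).val) % n = 1 % n := by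
    have := hu.2
    rw [← Nat.mod_mod_of_dvd ((u : ZMod (d * n)).val) h, this, Nat.mod_mod_of_dvd _ h]
  unfold chiU
  rw [jacobiSym.mod_left]
  have h3 : (((u : ZMod (d * n)).val : ℤ) % (n : ℤ)) = (1 : ℤ) % (n : ℤ) := by exact_mod_cast h1
  rw [h3, ← jacobiSym.mod_left, jacobiSym.one_left]

theorem chi_sum_zero (d n : ℕ) [NeZero (d * n)] (hn : Squarefree n) (hodd : Odd n)
    (h : ¬ n ∣ d) : ∑ u ∈ ker1 (d * n) d, chiU (d * n) n u = 0 := by
  classical
  obtain ⟨k, hk1, hk2, hk3⟩ := exists_neg n d hn hodd h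
  set u0 : (ZMod (d * n))ˣ := ZMod.unitOfCoprime k hk1 with hu0
  have hval : (u0 : ZMod (d * n)).val = k % (d * n) := by
    rw [hu0, ZMod.coe_unitOfCoprime, ZMod.val_natCast]
  have hc0 : chiU (d * n) n u0 = -1 := by
    unfold chiU
    rw [hval, jmod _ _ _ (Dvd.intro_left d rfl), hk3]
  have hu1 : u0 ∈ ker1 (d * n) d := by
    rw [ker1, Finset.mem_filter]
    refine ⟨Finset.mem_univ _, ?_⟩
    rw [hval, Nat.mod_mod_of_dvd _ (Dvd.intro n rfl), hk2]
  have hdd : d ∣ d * n := Dvd.intro n rfl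
  have h1 : ∑ u ∈ ker1 (d * n) d, chiU (d * n) n u =
      ∑ u ∈ ker1 (d * n) d, chiU (d * n) n (u0 * u) := by
    symm
    refine Finset.sum_equiv (Equiv.mulLeft u0) (fun u => ?_) (fun u _ => ?_)
    · rw [mem_ker1 _ _ hdd, Equiv.coe_mulLeft, mem_ker1 _ _ hdd, map_mul,
        (mem_ker1 _ _ hdd u0).1 hu1, one_mul]
    · rw [Equiv.coe_mulLeft]
  have h2 : ∑ u ∈ ker1 (d * n) d, chiU (d * n) n (u0 * u) =
      - ∑ u ∈ ker1 (d * n) d, chiU (d * n) n u := by
    rw [← Finset.sum_neg_distrib]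
    refine Finset.sum_congr rfl fun u _ => ?_
    rw [chiU_mul _ _ (Dvd.intro_left d rfl), hc0]
    ring
  omega

end Units

theorem Wd_lim (D : ℤ) (hD : Squarefree D) (hD1 : D % 4 = 1) (hD2 : D ≠ 1) (d : ℕ) (hd : 1 ≤ d) :
    Tendsto (fun x : ℕ => Wd D d x / (Nat.primeCounting x : ℝ)) atTop (nhds (om D d)) := by
  classical
  have hD0 : D ≠ 0 := by
    rintro rfl
    simp at hD1
  set n := D.natAbs with hn
  have hn0 : n ≠ 0 := Int.natAbs_ne_zero.2 hD0
  have hsq : Squarefree n := Int.squarefree_natAbs.2 hD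
  have hodd : Odd n := Nat.odd_iff.2 (by omega)
  have hN : NeZero (d * n) := ⟨Nat.mul_ne_zero (by omega) hn0⟩
  set w : ZMod (d * n) → ℝ := fun a => if a.val % d = 1 % d then
    (1 + (if 2 ∣ d then (jacobiSym (a.val : ℤ) n : ℝ) else 0)) else 0 with hw
  have h1 : ∀ x : ℕ, Wd D d x = ∑ p ∈ PR D x, w (p : ZMod (d * n)) := by
    intro x
    rw [Wd, Finset.sum_filter]
    refine Finset.sum_congr rfl fun p hp => ?_
    rw [PR, Finset.mem_filter] at hp
    rw [hw]
    simp only [ZMod.val_natCast]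
    rw [Nat.mod_mod_of_dvd _ (Dvd.intro n rfl), jmod _ _ _ (Dvd.intro_left d rfl),
      recip D hD1 p hp.2.1 hp.2.2.1]
  have h2 : ∑ u : (ZMod (d * n))ˣ, w (u : ZMod (d * n)) =
      (((d * n).totient : ℕ) : ℝ) * om D d := by
    have e1 : ∑ u : (ZMod (d * n))ˣ, w (u : ZMod (d * n)) =
        ∑ u ∈ ker1 (d * n) d, (1 + (if 2 ∣ d then (chiU (d * n) n u : ℝ) else 0)) := by
      rw [ker1, Finset.sum_filter]
      rfl
    have htd : (0 : ℝ) < d.totient := by
      exact_mod_cast Nat.totient_pos.2 (by omega : 0 < d)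
    have e2 : (((d * n).totient : ℕ) : ℝ) = ((ker1 (d * n) d).card : ℝ) * (d.totient : ℝ) := by
      rw [← ker1_card (d * n) d (Dvd.intro n rfl)]
      push_cast
      ring
    have hcop : Nat.Coprime 2 n := (Nat.coprime_two_left).2 hodd
    rw [e1, e2, om, Finset.sum_add_distrib, Finset.sum_const, nsmul_eq_mul, mul_one]
    by_cases h2d : 2 ∣ d
    · by_cases hnd : n ∣ d
      · have h3 : 2 * n ∣ d := hcop.mul_dvd_of_dvd_of_dvd h2d hnd
        simp only [h2d, if_true]
        rw [if_pos h3, Finset.sum_congr rfl (g := fun _ => (1 : ℝ))]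
        · rw [Finset.sum_const, nsmul_eq_mul]
          field_simp
        · intro u hu
          rw [chi_sum_one d n hnd u hu]
          norm_num
      · have h3 : ¬ 2 * n ∣ d := fun h => hnd ((Dvd.intro_left 2 rfl).trans h)
        simp only [h2d, if_true]
        rw [if_neg h3, ← Int.cast_sum, chi_sum_zero d n hsq hodd hnd]
        field_simp
        push_cast
        ring
    · have h3 : ¬ 2 * n ∣ d := fun h => h2d ((Dvd.intro n rfl).trans h)
      simp only [h2d, if_false]
      rw [if_neg h3, Finset.sum_const_zero]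
      field_simp
      ring
  have h3 := wsum_tendsto D hD0 (d * n) w
  rw [h2] at h3
  have ht : (((d * n).totient : ℕ) : ℝ) ≠ 0 := by
    have := Nat.totient_pos.2 (Nat.pos_of_ne_zero hN.out)
    exact_mod_cast this.ne'
  rw [mul_div_cancel_left₀ _ ht] at h3
  exact h3.congr fun x => by rw [h1]

end Pool.Agent.H730R2.AA
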