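import Mathlib
import Pool.Agent.H730R2.AA.Defs
import Pool.Agent.H730R2.AA.WdDefs
import Pool.Agent.H730R2.AA.WdLim
import Pool.Agent.H730R2.AA.Euler
import Pool.Agent.Helper602.MK.J3

set_option autoImplicit false

/-! # Artin with correction factor, module T4a: the main term (helper658) -/

namespace Pool.Agent.H730R2.AA

open Finset Filter

namespace MTLib

/-- `φ(n) = ∑_{d | n} μ(d) n/d` in divided form -/
theorem tot_div (n : ℕ) (hn : 0 < n) :
    (Nat.totient n : ℝ) / n = ∑ d ∈ n.divisors, ((ArithmeticFunction.moebius d : ℤ) : ℝ) / d := by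
  have h := (ArithmeticFunction.sum_eq_iff_sum_mul_moebius_eq (R := ℝ)
    (f := fun n => (Nat.totient n : ℝ)) (g := fun n => (n : ℝ))).1 (by
      intro n _
      have := Nat.sum_totient n
      calc ∑ i ∈ n.divisors, (Nat.totient i : ℝ) = ((∑ i ∈ n.divisors, Nat.totient i : ℕ) : ℝ) := by
            push_cast; rfl
        _ = n := by rw [this]) n hn
  rw [← h, Finset.sum_div]
  rw [Nat.sum_divisorsAntidiagonal
    (fun a b => ((ArithmeticFunction.moebius a : ℤ) : ℝ) * (b : ℝ) / (n : ℝ))]
  have hn' : (n : ℝ) ≠ 0 := by positivity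
  apply Finset.sum_congr rfl
  intro d hd
  have hd' := Nat.dvd_of_mem_divisors hd
  have hd0 : (d : ℝ) ≠ 0 := by
    have : d ≠ 0 := by rintro rfl; simp at hd
    exact_mod_cast this
  rw [Nat.cast_div hd' hd0]
  field_simp

/-- the part over even divisors, `n` even -/
theorem even_part (n : ℕ) (hn : 0 < n) (h2 : 2 ∣ n) :
    ∑ d ∈ n.divisors, (if 2 ∣ d then ((ArithmeticFunction.moebius d : ℤ) : ℝ) / d else 0) =
      - ((Nat.totient n : ℝ) / n) := by
  rw [tot_div n hn]
  have hsplit : ∑ d ∈ n.divisors, ((ArithmeticFunction.moebius d : ℤ) : ℝ) / d =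
      ∑ d ∈ n.divisors, (if 2 ∣ d then ((ArithmeticFunction.moebius d : ℤ) : ℝ) / d else 0) +
      ∑ d ∈ n.divisors, (if 2 ∣ d then 0 else ((ArithmeticFunction.moebius d : ℤ) : ℝ) / d) := by
    rw [← Finset.sum_add_distrib]
    apply Finset.sum_congr rfl
    intro d _
    split_ifs <;> simp
  have key : ∑ d ∈ n.divisors, (if 2 ∣ d then 0 else ((ArithmeticFunction.moebius d : ℤ) : ℝ) / d)
      = -2 * ∑ d ∈ n.divisors,
        (if 2 ∣ d then ((ArithmeticFunction.moebius d : ℤ) : ℝ) / d else 0) := by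
    rw [Finset.mul_sum]
    rw [← Finset.sum_filter_add_sum_filter_not n.divisors (fun d => 2 ∣ d)
      (fun d => (if 2 ∣ d then 0 else ((ArithmeticFunction.moebius d : ℤ) : ℝ) / d))]
    rw [← Finset.sum_filter_add_sum_filter_not n.divisors (fun d => 2 ∣ d)
      (fun d => -2 * (if 2 ∣ d then ((ArithmeticFunction.moebius d : ℤ) : ℝ) / d else 0))]
    have e1 : ∑ d ∈ n.divisors with 2 ∣ d,
        (if 2 ∣ d then 0 else ((ArithmeticFunction.moebius d : ℤ) : ℝ) / d) = 0 := by
      apply Finset.sum_eq_zero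
      intro d hd
      rw [if_pos (Finset.mem_filter.1 hd).2]
    have e2 : ∑ d ∈ n.divisors with ¬ 2 ∣ d,
        (-2 * (if 2 ∣ d then ((ArithmeticFunction.moebius d : ℤ) : ℝ) / d else 0)) = 0 := by
      apply Finset.sum_eq_zero
      intro d hd
      rw [if_neg (Finset.mem_filter.1 hd).2, mul_zero]
    rw [e1, e2, zero_add, add_zero]
    -- the even divisors divisible by 4 contribute zero
    have e3 : ∑ d ∈ n.divisors with 2 ∣ d,
        (-2 * (if 2 ∣ d then ((ArithmeticFunction.moebius d : ℤ) : ℝ) / d else 0)) =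
        ∑ d ∈ n.divisors with (2 ∣ d ∧ ¬ 4 ∣ d),
          (-2 * (((ArithmeticFunction.moebius d : ℤ) : ℝ) / d)) := by
      rw [← Finset.filter_filter]
      rw [← Finset.sum_filter_add_sum_filter_not (n.divisors.filter (fun d => 2 ∣ d))
        (fun d => ¬ 4 ∣ d)
        (fun d => (-2 * (if 2 ∣ d then ((ArithmeticFunction.moebius d : ℤ) : ℝ) / d else 0)))]
      have e4 : ∑ d ∈ (n.divisors.filter (fun d => 2 ∣ d)) with ¬ ¬ 4 ∣ d,
          (-2 * (if 2 ∣ d then ((ArithmeticFunction.moebius d : ℤ) : ℝ) / d else 0)) = 0 := by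
        apply Finset.sum_eq_zero
        intro d hd
        have h4 : 4 ∣ d := not_not.1 (Finset.mem_filter.1 hd).2
        have hns : ¬ Squarefree d := by
          intro hs
          have h22 : 2 * 2 ∣ d := by simpa using h4
          have := hs 2 h22
          rw [Nat.isUnit_iff] at this
          omega
        rw [ArithmeticFunction.moebius_eq_zero_of_not_squarefree hns]
        simp
      rw [e4, add_zero]
      apply Finset.sum_congr rfl
      intro d hd
      have h2d : 2 ∣ d := (Finset.mem_filter.1 (Finset.mem_filter.1 hd).1).2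
      rw [if_pos h2d]
    rw [e3]
    symm
    apply Finset.sum_nbij' (fun d => d / 2) (fun e => 2 * e)
    · intro d hd
      rw [Finset.mem_filter, Nat.mem_divisors] at hd
      obtain ⟨⟨hd1, hd2⟩, hd3, hd4⟩ := hd
      rw [Finset.mem_filter, Nat.mem_divisors]
      refine ⟨⟨(Nat.div_dvd_of_dvd hd3).trans hd1, hd2⟩, ?_⟩
      obtain ⟨e, rfl⟩ := hd3
      rw [Nat.mul_div_cancel_left _ (by norm_num)]
      intro he
      apply hd4
      obtain ⟨f, rfl⟩ := he
      exact ⟨f, by ring⟩
    · intro e he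
      rw [Finset.mem_filter, Nat.mem_divisors] at he
      obtain ⟨⟨he1, he2⟩, he3⟩ := he
      rw [Finset.mem_filter, Nat.mem_divisors]
      refine ⟨⟨?_, he2⟩, ⟨e, rfl⟩, ?_⟩
      · apply Nat.Coprime.mul_dvd_of_dvd_of_dvd _ h2 he1
        exact (Nat.Prime.coprime_iff_not_dvd Nat.prime_two).2 he3
      · intro h4
        apply he3
        have : 2 * 2 ∣ 2 * e := by simpa using h4
        exact Nat.dvd_of_mul_dvd_mul_left (by norm_num) this
    · intro d hd
      rw [Finset.mem_filter] at hd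
      exact Nat.mul_div_cancel' hd.2.1
    · intro e _
      exact Nat.mul_div_cancel_left _ (by norm_num)
    · intro d hd
      rw [Finset.mem_filter, Nat.mem_divisors] at hd
      obtain ⟨⟨hd1, hd2⟩, hd3, hd4⟩ := hd
      obtain ⟨e, rfl⟩ := hd3
      rw [Nat.mul_div_cancel_left _ (by norm_num)]
      have he : ¬ 2 ∣ e := by
        rintro ⟨f, rfl⟩
        exact hd4 ⟨f, by ring⟩
      rw [if_neg he]
      have hc : Nat.Coprime 2 e := (Nat.Prime.coprime_iff_not_dvd Nat.prime_two).2 he
      rw [ArithmeticFunction.isMultiplicative_moebius.map_mul_of_coprime hc,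
        ArithmeticFunction.moebius_apply_prime Nat.prime_two]
      have he0 : (e : ℝ) ≠ 0 := by
        have : e ≠ 0 := by rintro rfl; simp at he
        exact_mod_cast this
      push_cast
      field_simp
  rw [hsplit, key]
  ring

theorem mod_iff {p d : ℕ} (hp : 1 ≤ p) : p % d = 1 % d ↔ d ∣ p - 1 := by
  rw [← Nat.modEq_iff_dvd' hp]
  exact ⟨fun h => h.symm, fun h => h.symm⟩

theorem Wd_zero (D : ℤ) {d x : ℕ} (h : x < d) : Wd D d x = 0 := by
  unfold Wd
  apply Finset.sum_eq_zero
  intro p hp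
  exfalso
  rw [Finset.mem_filter, PR, Finset.mem_filter, Finset.mem_range] at hp
  obtain ⟨⟨hpx, hpp, hp2, -⟩, hmod⟩ := hp
  have h2 := hpp.two_le
  rw [mod_iff hpp.one_le] at hmod
  have := Nat.le_of_dvd (by omega) hmod
  omega

theorem rho_expand {p : ℕ} (hp : p.Prime) (h2 : p ≠ 2) (J : ℝ) :
    rho p * (1 - J) = ∑ d ∈ (p - 1).divisors,
      ((ArithmeticFunction.moebius d : ℤ) : ℝ) / d * (1 + (if 2 ∣ d then J else 0)) := by
  have h0 : 0 < p - 1 := by have := hp.two_le; omega
  have hev : 2 ∣ p - 1 := by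
    have := hp.eq_two_or_odd
    omega
  have e1 := tot_div (p - 1) h0
  have e2 := even_part (p - 1) h0 hev
  have e3 : ∑ d ∈ (p - 1).divisors,
      ((ArithmeticFunction.moebius d : ℤ) : ℝ) / d * (1 + (if 2 ∣ d then J else 0)) =
      ∑ d ∈ (p - 1).divisors, ((ArithmeticFunction.moebius d : ℤ) : ℝ) / d +
      J * ∑ d ∈ (p - 1).divisors,
        (if 2 ∣ d then ((ArithmeticFunction.moebius d : ℤ) : ℝ) / d else 0) := by
    rw [Finset.mul_sum, ← Finset.sum_add_distrib]
    apply Finset.sum_congr rfl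
    intro d _
    split_ifs <;> ring
  rw [e3, e2, ← e1, rho]
  ring

end MTLib

open MTLib

theorem main_eq (D : ℤ) (x : ℕ) :
    mainT D x = ∑' d : ℕ, ((ArithmeticFunction.moebius d : ℤ) : ℝ) / d * Wd D d x := by
  rw [tsum_eq_sum (s := Finset.range (x + 1)) (by
    intro d hd
    rw [Finset.mem_range, not_lt] at hd
    rw [Wd_zero D (by omega), mul_zero])]
  have e1 : ∀ d ∈ Finset.range (x + 1), ((ArithmeticFunction.moebius d : ℤ) : ℝ) / d * Wd D d x =
      ∑ p ∈ PR D x, (if d ∣ p - 1 then ((ArithmeticFunction.moebius d : ℤ) : ℝ) / d *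
        (1 + (if 2 ∣ d then (jacobiSym D p : ℝ) else 0)) else 0) := by
    intro d _
    rw [Wd, Finset.mul_sum, Finset.sum_filter]
    apply Finset.sum_congr rfl
    intro p hp
    rw [PR, Finset.mem_filter] at hp
    simp only [mod_iff hp.2.1.one_le]
  rw [Finset.sum_congr rfl e1, Finset.sum_comm, mainT]
  apply Finset.sum_congr rfl
  intro p hp
  rw [PR, Finset.mem_filter, Finset.mem_range] at hp
  obtain ⟨hpx, hpp, hp2, -⟩ := hp
  rw [rho_expand hpp hp2, ← Finset.sum_filter]
  have h2 := hpp.two_le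
  apply Finset.sum_subset_zero_on_sdiff
  · intro d hd
    rw [Nat.mem_divisors] at hd
    rw [Finset.mem_filter, Finset.mem_range]
    have := Nat.le_of_dvd (by omega) hd.1
    exact ⟨by omega, hd.1⟩
  · intro d hd
    rw [Finset.mem_sdiff, Finset.mem_filter, Nat.mem_divisors] at hd
    exfalso
    exact hd.2 ⟨hd.1.2, by omega⟩
  · intro d _
    rfl

namespace MTLib

/-- `n ≤ 2 φ(n)^2` -/
theorem tot_sq (n : ℕ) : n ≤ 2 * (Nat.totient n) ^ 2 ∧ (¬ 2 ∣ n → n ≤ (Nat.totient n) ^ 2) := by
  induction n using Nat.recOnPosPrimePosCoprime with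
  | prime_pow p n hp hn =>
    obtain ⟨k, rfl⟩ : ∃ k, n = k + 1 := ⟨n - 1, by omega⟩
    rw [Nat.totient_prime_pow_succ hp]
    rcases hp.eq_two_or_odd with h2 | hodd
    · subst h2
      refine ⟨?_, ?_⟩
      · have h1 : 1 ≤ 2 ^ k := Nat.one_le_two_pow
        have : (2 - 1 : ℕ) = 1 := rfl
        rw [this, mul_one, pow_succ]
        nlinarith
      · intro h
        exact absurd (dvd_pow_self 2 (by omega)) h
    · have h3 : 3 ≤ p := by
        have := hp.two_le
        omega
      obtain ⟨r, rfl⟩ : ∃ r, p = r + 1 := ⟨p - 1, by omega⟩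
      have hr : 2 ≤ r := by omega
      have h1 : 1 ≤ (r + 1) ^ k := Nat.one_le_pow _ _ (by omega)
      have h4 : (r + 1) ^ (k + 1) ≤ ((r + 1) ^ k * (r + 1 - 1)) ^ 2 := by
        have : r + 1 - 1 = r := by omega
        rw [this, mul_pow, pow_succ]
        have h5 : r + 1 ≤ r ^ 2 := by nlinarith
        have h6 : (r + 1) ^ k ≤ ((r + 1) ^ k) ^ 2 := by nlinarith
        exact Nat.mul_le_mul h6 h5
      exact ⟨by omega, fun _ => h4⟩
  | zero => simp
  | one => simp
  | coprime a b ha hb hab iha ihb =>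
    rw [Nat.totient_mul hab, mul_pow]
    refine ⟨?_, ?_⟩
    · by_cases h2 : 2 ∣ a
      · have h3 : ¬ 2 ∣ b := by
          intro h
          have := Nat.dvd_gcd h2 h
          rw [hab] at this
          omega
        have := Nat.mul_le_mul iha.1 (ihb.2 h3)
        calc a * b ≤ _ := this
          _ = _ := by ring
      · have := Nat.mul_le_mul (iha.2 h2) ihb.1
        calc a * b ≤ _ := this
          _ = _ := by ring
    · intro h
      have h1 : ¬ 2 ∣ a := fun h' => h (h'.mul_right b)
      have h2 : ¬ 2 ∣ b := fun h' => h (h'.mul_left a)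
      exact Nat.mul_le_mul (iha.2 h1) (ihb.2 h2)

theorem abs_Wd_le (D : ℤ) (d x : ℕ) :
    |Wd D d x| ≤ 2 * (((PR D x).filter (fun p => p % d = 1 % d)).card : ℝ) := by
  unfold Wd
  refine (Finset.abs_sum_le_sum_abs _ _).trans ?_
  have : ∀ p ∈ (PR D x).filter (fun p => p % d = 1 % d),
      |1 + (if 2 ∣ d then (jacobiSym D p : ℝ) else 0)| ≤ 2 := by
    intro p _
    split_ifs
    · rcases jacobiSym.trichotomy D p with h | h | h <;> rw [h] <;> norm_num
    · norm_num
  refine (Finset.sum_le_sum this).trans ?_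
  rw [Finset.sum_const, nsmul_eq_mul]
  linarith

theorem inj_aux (D : ℤ) {d : ℕ} (x : ℕ) (hd : 1 ≤ d) :
    ((PR D x).filter (fun p => p % d = 1 % d)).card ≤
      ((Finset.Icc 1 (x / d)).filter (fun k => (1 + k * d).Prime)).card := by
  apply Finset.card_le_card_of_injOn (fun p => (p - 1) / d)
  · intro p hp
    rw [Finset.mem_coe, Finset.mem_filter, PR, Finset.mem_filter, Finset.mem_range] at hp
    obtain ⟨⟨hpx, hpp, hp2, -⟩, hmod⟩ := hp
    rw [mod_iff hpp.one_le] at hmod
    rw [Finset.mem_coe, Finset.mem_filter, Finset.mem_Icc]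
    have h2 := hpp.two_le
    refine ⟨⟨?_, ?_⟩, ?_⟩
    · rw [Nat.one_le_div_iff (by omega)]
      exact Nat.le_of_dvd (by omega) hmod
    · exact Nat.div_le_div_right (by omega)
    · rw [Nat.div_mul_cancel hmod]
      have : 1 + (p - 1) = p := by omega
      rw [this]
      exact hpp
  · intro p hp p' hp' h
    rw [Finset.mem_coe, Finset.mem_filter, PR, Finset.mem_filter, Finset.mem_range] at hp hp'
    obtain ⟨⟨hpx, hpp, hp2, -⟩, hmod⟩ := hp
    obtain ⟨⟨hpx', hpp', hp2', -⟩, hmod'⟩ := hp'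
    rw [mod_iff hpp.one_le] at hmod
    rw [mod_iff hpp'.one_le] at hmod'
    have h1 := Nat.div_mul_cancel hmod
    have h1' := Nat.div_mul_cancel hmod'
    have h2 := hpp.two_le
    have h2' := hpp'.two_le
    simp only at h
    rw [h] at h1
    omega

theorem pi_lower (x : ℕ) (hx : 2 ≤ x) :
    (x : ℝ) / (10 * Real.log x) ≤ (Nat.primeCounting x : ℝ) := by
  have hx' : (2 : ℝ) ≤ x := by exact_mod_cast hx
  have hlog : 0 < Real.log x := Real.log_pos (by linarith)
  have key : ∀ n : ℕ, 2 ≤ n → (n : ℝ) / 10 ≤ n * Real.log 2 - Real.log (n + 1) := by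
    intro n hn
    induction n, hn using Nat.le_induction with
    | base =>
      push_cast
      have h1 : Real.log (2 + 1) = Real.log 2 + Real.log (3 / 2) := by
        rw [← Real.log_mul (by norm_num) (by norm_num)]
        norm_num
      have h2 : Real.log (3 / 2) ≤ 3 / 2 - 1 := Real.log_le_sub_one_of_pos (by norm_num)
      have h3 := Real.log_two_gt_d9
      have h4 : Real.log (3/2) = Real.log 2 - Real.log (4 / 3) := by
        rw [← Real.log_div (by norm_num) (by norm_num)]
        norm_num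
      have h5 : 1 - (4/3 : ℝ)⁻¹ ≤ Real.log (4/3) := Real.one_sub_inv_le_log_of_pos (by norm_num)
      norm_num at h5
      linarith
    | succ n hn ih =>
      push_cast
      have hn' : (2 : ℝ) ≤ n := by exact_mod_cast hn
      have h1 : Real.log ((n : ℝ) + 1 + 1) = Real.log ((n : ℝ) + 1) +
          Real.log (1 + 1 / ((n : ℝ) + 1)) := by
        rw [← Real.log_mul (by positivity) (by positivity)]
        congr 1
        field_simp
      have h2 : Real.log (1 + 1 / ((n : ℝ) + 1)) ≤ 1 / ((n : ℝ) + 1) := by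
        have := Real.log_le_sub_one_of_pos (x := 1 + 1 / ((n : ℝ) + 1)) (by positivity)
        linarith
      have h3 : 1 / ((n : ℝ) + 1) ≤ 1 / 3 := by
        apply one_div_le_one_div_of_le (by norm_num)
        linarith
      have h4 := Real.log_two_gt_d9
      rw [h1]
      linarith
  have h1 := Chebyshev.pi_ge x
  refine le_trans ?_ h1
  rw [div_le_div_iff₀ (by positivity) hlog]
  have := key x hx
  nlinarith

end MTLib

theorem Wd_bound (D : ℤ) : ∃ C : ℝ, 0 < C ∧ ∀ d x : ℕ, 1 ≤ d → 2 ≤ x →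
    |Wd D d x| / (Nat.primeCounting x : ℝ) ≤ C * (d : ℝ) ^ (-(1 : ℝ) / 4) := by
  obtain ⟨C, hC, hBT⟩ := Pool.Agent.Helper602.MK.BTLib.brun_titchmarsh
  refine ⟨160 * C, by positivity, ?_⟩
  intro d x hd hx
  have hd' : (1 : ℝ) ≤ d := by exact_mod_cast hd
  have hd0 : (0 : ℝ) < d := by linarith
  have hx' : (2 : ℝ) ≤ x := by exact_mod_cast hx
  have hx0 : (0 : ℝ) < x := by linarith
  have hlog : 0 < Real.log x := Real.log_pos (by linarith)
  have hpi := pi_lower x hx
  have hpi0 : 0 < (x : ℝ) / (10 * Real.log x) := by positivity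
  have hpi1 : 0 < (Nat.primeCounting x : ℝ) := lt_of_lt_of_le hpi0 hpi
  have hW := abs_Wd_le D d x
  have hinj := inj_aux D x hd
  set K : ℝ := (((PR D x).filter (fun p => p % d = 1 % d)).card : ℝ) with hK
  have hK0 : 0 ≤ K := by positivity
  have h1 : |Wd D d x| / (Nat.primeCounting x : ℝ) ≤ 20 * K * Real.log x / x := by
    calc |Wd D d x| / (Nat.primeCounting x : ℝ) ≤ (2 * K) / (x / (10 * Real.log x)) := by
          apply div_le_div₀ (by positivity) hW hpi0 hpi
      _ = 20 * K * Real.log x / x := by field_simp; ring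
  refine h1.trans ?_
  have hpow : (d : ℝ) ^ (-(1 : ℝ) / 4) * (d : ℝ) ^ ((3 : ℝ) / 4) = (d : ℝ) ^ ((1 : ℝ) / 2) := by
    rw [← Real.rpow_add hd0]; norm_num
  by_cases hcase : (d : ℝ) ^ 2 ≤ x
  · -- Brun-Titchmarsh
    have hdx : d ≤ x := by
      have : (d : ℝ) ≤ x := by nlinarith
      exact_mod_cast this
    have hN2 : 2 ≤ x / d + 1 := by
      have : 1 ≤ x / d := (Nat.one_le_div_iff (by omega)).2 hdx
      omega
    have hbt := hBT 1 d (x / d + 1) hd hN2
    have hKle : K ≤ (((Finset.range (x / d + 1)).filter (fun k => (1 + k * d).Prime)).card : ℝ) := by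
      rw [hK]
      have : ((Finset.Icc 1 (x / d)).filter (fun k => (1 + k * d).Prime)).card ≤
          ((Finset.range (x / d + 1)).filter (fun k => (1 + k * d).Prime)).card := by
        apply Finset.card_le_card
        apply Finset.filter_subset_filter
        intro k hk
        rw [Finset.mem_Icc] at hk
        rw [Finset.mem_range]
        omega
      exact_mod_cast hinj.trans this
    have hNlow : (x : ℝ) / d ≤ ((x / d + 1 : ℕ) : ℝ) := by
      have := Nat.lt_div_mul_add (a := x) (b := d) (by omega)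
      rw [div_le_iff₀ hd0]
      have h3 : x < (x / d + 1) * d := by
        have : (x / d + 1) * d = x / d * d + d := by ring
        omega
      exact_mod_cast h3.le
    have hNup : ((x / d + 1 : ℕ) : ℝ) ≤ 2 * (x / d) := by
      push_cast
      have h3 : ((x / d : ℕ) : ℝ) ≤ (x : ℝ) / d := Nat.cast_div_le
      have h4 : (1 : ℝ) ≤ (x : ℝ) / d := by
        rw [le_div_iff₀ hd0]
        have : (d : ℝ) ≤ x := by exact_mod_cast hdx
        linarith
      linarith
    have hsq : Real.sqrt x ≤ (x : ℝ) / d := by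
      rw [le_div_iff₀ hd0]
      have h5 : (d : ℝ) ≤ Real.sqrt x := Real.le_sqrt_of_sq_le hcase
      calc Real.sqrt x * d ≤ Real.sqrt x * Real.sqrt x :=
            mul_le_mul_of_nonneg_left h5 (Real.sqrt_nonneg _)
        _ = x := Real.mul_self_sqrt hx0.le
    have hlogN : Real.log x / 2 ≤ Real.log ((x / d + 1 : ℕ) : ℝ) := by
      have : Real.log (Real.sqrt x) ≤ Real.log ((x / d + 1 : ℕ) : ℝ) := by
        apply Real.log_le_log (Real.sqrt_pos.2 hx0)
        exact hsq.trans hNlow
      rwa [Real.log_sqrt hx0.le] at this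
    have hphi0 : (0 : ℝ) < Nat.totient d := by exact_mod_cast Nat.totient_pos.2 (by omega)
    have h6 : K ≤ 4 * C * (x / (Nat.totient d * Real.log x)) := by
      refine (hKle.trans hbt).trans ?_
      calc C * ((d : ℝ) / (Nat.totient d : ℝ)) * ((x / d + 1 : ℕ) : ℝ) /
            Real.log ((x / d + 1 : ℕ) : ℝ)
          ≤ C * ((d : ℝ) / (Nat.totient d : ℝ)) * (2 * (x / d)) / (Real.log x / 2) := by
            apply div_le_div₀ (by positivity) _ (by positivity) hlogN
            apply mul_le_mul_of_nonneg_left hNup (by positivity)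
        _ = 4 * C * (x / (Nat.totient d * Real.log x)) := by
            field_simp
            ring
    have h7 : 20 * K * Real.log x / x ≤ 80 * C / Nat.totient d := by
      calc 20 * K * Real.log x / x
          ≤ 20 * (4 * C * (x / (Nat.totient d * Real.log x))) * Real.log x / x := by
            gcongr
        _ = 80 * C / Nat.totient d := by
            field_simp
            ring
    refine h7.trans ?_
    have h8 : (d : ℝ) ^ ((1 : ℝ) / 4) ≤ 2 * Nat.totient d := by
      have h9 : (d : ℝ) ≤ 2 * (Nat.totient d : ℝ) ^ 2 := by exact_mod_cast (tot_sq d).1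
      have h10 : (d : ℝ) ^ ((1 : ℝ) / 4) ≤ (d : ℝ) ^ ((1 : ℝ) / 2) :=
        Real.rpow_le_rpow_of_exponent_le hd' (by norm_num)
      refine h10.trans ?_
      rw [← Real.sqrt_eq_rpow]
      apply Real.sqrt_le_iff.2
      refine ⟨by positivity, ?_⟩
      nlinarith
    have h11 : (d : ℝ) ^ (-(1 : ℝ) / 4) = ((d : ℝ) ^ ((1 : ℝ) / 4))⁻¹ := by
      rw [← Real.rpow_neg hd0.le]
      norm_num
    rw [h11]
    have h12 : 0 < (d : ℝ) ^ ((1 : ℝ) / 4) := Real.rpow_pos_of_pos hd0 _
    rw [div_le_iff₀ hphi0]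
    have h13 : 1 ≤ ((d : ℝ) ^ ((1 : ℝ) / 4))⁻¹ * (2 * Nat.totient d) := by
      calc (1 : ℝ) = ((d : ℝ) ^ ((1 : ℝ) / 4))⁻¹ * (d : ℝ) ^ ((1 : ℝ) / 4) := by
            rw [inv_mul_cancel₀ h12.ne']
        _ ≤ _ := mul_le_mul_of_nonneg_left h8 (by positivity)
    nlinarith
  · -- trivial bound
    rw [not_le] at hcase
    have hKle : K ≤ (x : ℝ) / d := by
      rw [hK]
      have h2 : ((Finset.Icc 1 (x / d)).filter (fun k => (1 + k * d).Prime)).card ≤ x / d := by
        refine (Finset.card_filter_le _ _).trans ?_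
        simp
      calc (((PR D x).filter (fun p => p % d = 1 % d)).card : ℝ) ≤ ((x / d : ℕ) : ℝ) := by
            exact_mod_cast hinj.trans h2
        _ ≤ (x : ℝ) / d := Nat.cast_div_le
    have h2 : 20 * K * Real.log x / x ≤ 20 * Real.log x / d := by
      calc 20 * K * Real.log x / x ≤ 20 * (x / d) * Real.log x / x := by gcongr
        _ = 20 * Real.log x / d := by field_simp
    refine h2.trans ?_
    have h3 : Real.log x ≤ 2 * Real.log d := by
      have := Real.log_le_log hx0 hcase.le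
      rwa [Real.log_pow, Nat.cast_ofNat] at this
    have h4 : Real.log d ≤ (d : ℝ) ^ ((3 : ℝ) / 4) / (3 / 4) :=
      Real.log_le_rpow_div hd0.le (by norm_num)
    have h5 : (d : ℝ) ^ (-(1 : ℝ) / 4) * d = (d : ℝ) ^ ((3 : ℝ) / 4) := by
      nth_rewrite 2 [← Real.rpow_one (d : ℝ)]
      rw [← Real.rpow_add hd0]
      norm_num
    rw [div_le_iff₀ hd0, mul_assoc, h5]
    have h6 : 0 ≤ (d : ℝ) ^ ((3 : ℝ) / 4) := by positivity
    nlinarith

/-- conditional form of `main_lim` -/
theorem main_lim_of (D : ℤ)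
    (hlim : ∀ d : ℕ, 1 ≤ d →
      Tendsto (fun x : ℕ => Wd D d x / (Nat.primeCounting x : ℝ)) atTop (nhds (om D d)))
    (hsum : ∑' d : ℕ, ((ArithmeticFunction.moebius d : ℤ) : ℝ) / d * om D d = dens D) :
    Tendsto (fun x : ℕ => mainT D x / (Nat.primeCounting x : ℝ)) atTop (nhds (dens D)) := by
  obtain ⟨C, hC, hb⟩ := Wd_bound D
  rw [← hsum]
  have e1 : ∀ x : ℕ, mainT D x / (Nat.primeCounting x : ℝ) =
      ∑' d : ℕ, ((ArithmeticFunction.moebius d : ℤ) : ℝ) / d *
        (Wd D d x / (Nat.primeCounting x : ℝ)) := by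
    intro x
    rw [main_eq, ← tsum_div_const]
    apply tsum_congr
    intro d
    rw [mul_div_assoc]
  simp_rw [e1]
  apply tendsto_tsum_of_dominated_convergence
    (bound := fun d : ℕ => C * (d : ℝ) ^ (-(5 : ℝ) / 4))
  · apply Summable.mul_left
    rw [Real.summable_nat_rpow]
    norm_num
  · intro d
    rcases Nat.eq_zero_or_pos d with rfl | hd
    · simp
    · exact (hlim d hd).const_mul _
  · filter_upwards [eventually_ge_atTop 2] with x hx d
    rcases Nat.eq_zero_or_pos d with rfl | hd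
    · simp
    · have hd0 : (0 : ℝ) < d := by exact_mod_cast hd
      have h1 := hb d x hd hx
      have hmu : |((ArithmeticFunction.moebius d : ℤ) : ℝ)| ≤ 1 := by
        have := ArithmeticFunction.abs_moebius_le_one (n := d)
        exact_mod_cast this
      rw [Real.norm_eq_abs, abs_mul, abs_div, abs_div, Nat.abs_cast, Nat.abs_cast]
      calc |((ArithmeticFunction.moebius d : ℤ) : ℝ)| / d *
            (|Wd D d x| / (Nat.primeCounting x : ℝ))
          ≤ 1 / d * (C * (d : ℝ) ^ (-(1 : ℝ) / 4)) := by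
            apply mul_le_mul _ h1 (by positivity) (by positivity)
            gcongr
        _ = C * (d : ℝ) ^ (-(5 : ℝ) / 4) := by
            have : (d : ℝ) ^ (-(5 : ℝ) / 4) = (d : ℝ) ^ (-(1 : ℝ) / 4) * (d : ℝ) ^ (-1 : ℝ) := by
              rw [← Real.rpow_add hd0]
              norm_num
            rw [this, Real.rpow_neg_one]
            field_simp

theorem main_lim (D : ℤ) (hD : Squarefree D) (hD1 : D % 4 = 1) (hD2 : D ≠ 1) :
    Tendsto (fun x : ℕ => mainT D x / (Nat.primeCounting x : ℝ)) atTop (nhds (dens D)) :=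
  main_lim_of D (fun d hd => Wd_lim D hD hD1 hD2 d hd) (euler_dens D hD hD1 hD2)

end Pool.Agent.H730R2.AA
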