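import Mathlib
import Pool.Agent.H730R2.AA.Defs
import Pool.Agent.H730R2.AA.Tau
import Pool.Agent.H730R2.AA.LSr
import Pool.Agent.H730R2.AA.Expand

set_option autoImplicit false

namespace Pool.Agent.H730R2.AA

open Finset

lemma ox_cheb (x : ℕ) (hx : 4 ≤ x) :
    (x : ℝ) / 4 ≤ (Nat.primeCounting x : ℝ) * Real.log x := by
  have h := Chebyshev.pi_ge x
  have hx' : (4 : ℝ) ≤ x := by exact_mod_cast hx
  have hlog : 0 < Real.log x := Real.log_pos (by linarith)
  rw [div_le_iff₀ hlog] at h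
  refine le_trans ?_ h
  have h1 : Real.log ((x : ℝ) + 1) ≤ ((x : ℝ) + 1) / 4 - 1 + Real.log 4 := by
    have h2 := Real.log_le_sub_one_of_pos (x := ((x : ℝ) + 1) / 4) (by positivity)
    rw [Real.log_div (by positivity) (by norm_num)] at h2
    linarith
  have h3 : Real.log 4 = 2 * Real.log 2 := by
    rw [show (4 : ℝ) = 2 ^ 2 by norm_num, Real.log_pow]
    norm_num
  have h4 := Real.log_two_gt_d9
  have h5 := Real.log_two_lt_d9
  rw [h3] at h1
  have h6 : 0.6931471803 * (x : ℝ) ≤ (x : ℝ) * Real.log 2 := by nlinarith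
  norm_num at h4 h5 h6 ⊢
  linarith

lemma ox_rho0 (p : ℕ) : 0 ≤ rho p := by unfold rho; positivity

lemma ox_rho1 (p : ℕ) : rho p ≤ 1 := by
  unfold rho
  apply div_le_one_of_le₀ _ (Nat.cast_nonneg _)
  exact_mod_cast Nat.totient_le _

lemma ox_jac (D : ℤ) (p : ℕ) : 0 ≤ 1 - (jacobiSym D p : ℝ) ∧ 1 - (jacobiSym D p : ℝ) ≤ 2 := by
  rcases jacobiSym.trichotomy D p with h | h | h <;> rw [h] <;> norm_num

/-- number of primes up to `x` that divide `m` -/
def omx (x m : ℕ) : ℕ := ((range (x + 1)).filter (fun p => p.Prime ∧ p ∣ m)).card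

lemma ox_sum_omx (x M : ℕ) :
    ∑ m ∈ Icc 1 M, (omx x m : ℝ) ≤ M * (1 + Real.log x) := by
  have h1 : ∀ m, (omx x m : ℝ) = ∑ p ∈ (range (x + 1)).filter Nat.Prime,
      if p ∣ m then (1 : ℝ) else 0 := by
    intro m
    unfold omx
    rw [← Finset.sum_filter, Finset.filter_filter, Finset.sum_const, nsmul_eq_mul, mul_one]
  simp_rw [h1]
  rw [Finset.sum_comm]
  have h2 : ∀ p ∈ (range (x + 1)).filter Nat.Prime, ∑ m ∈ Icc 1 M, (if p ∣ m then (1 : ℝ) else 0) ≤
      M * (1 / (p : ℝ)) := by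
    intro p _
    rw [← Finset.sum_filter, Finset.sum_const, nsmul_eq_mul, mul_one]
    have h3 : (Icc 1 M).filter (fun m => p ∣ m) = (Ioc 0 M).filter (fun m => p ∣ m) := by
      ext m; simp only [mem_filter, mem_Icc, mem_Ioc]; omega
    rw [h3, Nat.Ioc_filter_dvd_card_eq_div]
    have := @Nat.cast_div_le ℝ _ _ _ M p
    rw [mul_one_div]
    exact this
  refine (Finset.sum_le_sum h2).trans ?_
  rw [← Finset.mul_sum]
  apply mul_le_mul_of_nonneg_left _ (Nat.cast_nonneg _)
  have h4 : ∑ p ∈ (range (x + 1)).filter Nat.Prime, 1 / (p : ℝ) ≤ ∑ n ∈ Icc 1 x, 1 / (n : ℝ) := by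
    apply Finset.sum_le_sum_of_subset_of_nonneg
    · intro p hp
      rw [mem_filter, mem_range] at hp
      rw [mem_Icc]
      exact ⟨hp.2.one_le, by omega⟩
    · intro i _ _; positivity
  refine h4.trans ?_
  have h5 := harmonic_le_one_add_log x
  rw [harmonic_eq_sum_Icc] at h5
  push_cast at h5
  simpa [one_div] using h5

open Classical in
lemma ox_cnt (D : ℤ) (hD0 : D ≠ 0) (x m : ℕ) :
    |(cnt (D * (m : ℤ) ^ 2) x : ℝ) - ∑ p ∈ PR D x,
      (if orderOf (((D * (m : ℤ) ^ 2 : ℤ)) : ZMod p) = p - 1 then (1 : ℝ) else 0)| ≤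
    (1 + D.natAbs.primeFactors.card : ℕ) := by
  have h1 : (cnt (D * (m : ℤ) ^ 2) x : ℝ) = ∑ p ∈ (range (x + 1)).filter Nat.Prime,
      (if orderOf (((D * (m : ℤ) ^ 2 : ℤ)) : ZMod p) = p - 1 then (1 : ℝ) else 0) := by
    unfold cnt
    rw [← Finset.sum_filter, Finset.filter_filter, Finset.sum_const, nsmul_eq_mul, mul_one]
  have hsub : PR D x ⊆ (range (x + 1)).filter Nat.Prime := by
    intro p hp
    rw [PR, mem_filter] at hp
    rw [mem_filter]
    exact ⟨hp.1, hp.2.1⟩
  rw [h1, ← Finset.sum_sdiff hsub, add_sub_cancel_right, abs_of_nonneg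
    (Finset.sum_nonneg fun _ _ => by split_ifs <;> norm_num)]
  calc ∑ p ∈ (range (x + 1)).filter Nat.Prime \ PR D x,
      (if orderOf (((D * (m : ℤ) ^ 2 : ℤ)) : ZMod p) = p - 1 then (1 : ℝ) else 0)
      ≤ ∑ p ∈ (range (x + 1)).filter Nat.Prime \ PR D x, (1 : ℝ) :=
        Finset.sum_le_sum fun _ _ => by split_ifs <;> norm_num
    _ = (((range (x + 1)).filter Nat.Prime \ PR D x).card : ℝ) := by simp
    _ ≤ (1 + D.natAbs.primeFactors.card : ℕ) := by
        have h2 : (range (x + 1)).filter Nat.Prime \ PR D x ⊆ insert 2 D.natAbs.primeFactors := by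
          intro p hp
          rw [mem_sdiff, mem_filter, PR, mem_filter] at hp
          obtain ⟨⟨h3, h4⟩, h5⟩ := hp
          rw [mem_insert, Nat.mem_primeFactors]
          by_cases h6 : p = 2
          · exact Or.inl h6
          · right
            refine ⟨h4, ?_, by simpa using hD0⟩
            by_contra h7
            apply h5
            refine ⟨h3, h4, h6, fun h8 => h7 ?_⟩
            exact Int.natCast_dvd.1 h8
        have h3 := (Finset.card_le_card h2).trans (Finset.card_insert_le _ _)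
        have : ((range (x + 1)).filter Nat.Prime \ PR D x).card ≤
            1 + D.natAbs.primeFactors.card := by omega
        exact_mod_cast this

lemma ox_div (D : ℤ) (x : ℕ) (hx : 1 ≤ x) :
    ∑ p ∈ PR D x, ((p - 1).divisors.card : ℝ) ≤ x * (1 + Real.log x) := by
  refine le_trans ?_ (sum_divisors_card x hx)
  have hinj : Set.InjOn (fun p : ℕ => p - 1) (PR D x : Set ℕ) := by
    intro p hp q hq h
    simp only [Finset.mem_coe, PR, mem_filter] at hp hq
    have h1 := hp.2.1.one_le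
    have h2 := hq.2.1.one_le
    simp only at h
    omega
  rw [← Finset.sum_image (s := PR D x) (g := fun p : ℕ => p - 1)
    (f := fun n : ℕ => (n.divisors.card : ℝ)) hinj]
  apply Finset.sum_le_sum_of_subset_of_nonneg
  · intro n hn
    rw [mem_image] at hn
    obtain ⟨p, hp, rfl⟩ := hn
    simp only [PR, mem_filter, mem_range] at hp
    have h1 := hp.2.1.two_le
    rw [mem_Icc]
    omega
  · intro i _ _; positivity

/-- everything at one `x` -/
lemma ox_key (D : ℤ) (x : ℕ) (hx : 1 ≤ x) : ∃ v : ℕ → ℝ,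
    (∀ m : ℕ, |(∑ p ∈ PR D x,
      (if orderOf (((D * (m : ℤ) ^ 2 : ℤ)) : ZMod p) = p - 1 then (1 : ℝ) else 0)) -
        mainT D x| ≤ |v m| + 2 * omx x m) ∧
    ∀ (r M : ℕ) (E : Finset ℕ), 1 ≤ r → 1 ≤ M → (x : ℝ) ^ 2 ≤ (M : ℝ) ^ r → E ⊆ Icc 1 M →
      |∑ m ∈ E, v m| ≤ 24 * (x * (1 + Real.log x)) * (x : ℝ) ^ (-(1 : ℝ) / (2 * r)) *
        (M * (1 + Real.log M) ^ (((r : ℝ) - 1) / 2)) := by
  classical
  have hex : ∀ p : ℕ, ∃ β : DirichletCharacter ℂ p → ℂ, (p ∈ PR D x →
      (∀ m : ℕ, (if orderOf (((D * (m : ℤ) ^ 2 : ℤ)) : ZMod p) = p - 1 then (1 : ℂ) else 0) =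
        (if p ∣ m then 0 else ((rho p * (1 - (jacobiSym D p : ℝ)) : ℝ) : ℂ)) +
        ∑ χ ∈ NT p, β χ * χ (m : ZMod p)) ∧
      (∑ χ ∈ NT p, ‖β χ‖ ≤ ((p - 1).divisors.card : ℝ))) ∧ ∀ χ, ‖β χ‖ ≤ 2 := by
    intro p
    by_cases hp : p ∈ PR D x
    · have hp' := hp
      rw [PR, mem_filter] at hp'
      have : Fact p.Prime := ⟨hp'.2.1⟩
      obtain ⟨β, h1, h2, h3⟩ := expand p hp'.2.2.1 D hp'.2.2.2
      refine ⟨β, fun _ => ⟨h1, le_trans ?_ h2⟩, h3⟩
      apply Finset.sum_le_sum_of_subset_of_nonneg (Finset.subset_univ _)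
      intro i _ _; positivity
    · exact ⟨fun _ => 0, fun h => absurd h hp, fun χ => by simp⟩
  choose β hβ hβ2 using hex
  refine ⟨fun m => ∑ p ∈ PR D x,
    ((if orderOf (((D * (m : ℤ) ^ 2 : ℤ)) : ZMod p) = p - 1 then (1 : ℝ) else 0) -
      (if p ∣ m then 0 else rho p * (1 - (jacobiSym D p : ℝ)))), ?_, ?_⟩
  · intro m
    have h1 : (∑ p ∈ PR D x,
      (if orderOf (((D * (m : ℤ) ^ 2 : ℤ)) : ZMod p) = p - 1 then (1 : ℝ) else 0)) -
        mainT D x = (∑ p ∈ PR D x,
    ((if orderOf (((D * (m : ℤ) ^ 2 : ℤ)) : ZMod p) = p - 1 then (1 : ℝ) else 0) -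
      (if p ∣ m then 0 else rho p * (1 - (jacobiSym D p : ℝ))))) -
        ∑ p ∈ PR D x, (if p ∣ m then rho p * (1 - (jacobiSym D p : ℝ)) else 0) := by
      unfold mainT
      rw [← Finset.sum_sub_distrib, ← Finset.sum_sub_distrib]
      apply Finset.sum_congr rfl
      intro p _
      split_ifs <;> ring
    rw [h1]
    refine (abs_sub _ _).trans ?_
    apply add_le_add le_rfl
    rw [abs_of_nonneg]
    · calc ∑ p ∈ PR D x, (if p ∣ m then rho p * (1 - (jacobiSym D p : ℝ)) else 0)
          ≤ ∑ p ∈ PR D x, (if p ∣ m then (2 : ℝ) else 0) := by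
            apply Finset.sum_le_sum
            intro p _
            split_ifs
            · have h2 := ox_rho0 p
              have h3 := ox_rho1 p
              have h4 := ox_jac D p
              calc rho p * (1 - (jacobiSym D p : ℝ)) ≤ 1 * 2 :=
                    mul_le_mul h3 h4.2 h4.1 zero_le_one
                _ = 2 := by norm_num
            · exact le_rfl
        _ = 2 * (((PR D x).filter (fun p => p ∣ m)).card : ℝ) := by
            rw [← Finset.sum_filter, Finset.sum_const, nsmul_eq_mul, mul_comm]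
        _ ≤ 2 * (omx x m : ℝ) := by
            apply mul_le_mul_of_nonneg_left _ (by norm_num)
            unfold omx
            have : ((PR D x).filter (fun p => p ∣ m)).card ≤
                ((range (x + 1)).filter (fun p => p.Prime ∧ p ∣ m)).card := by
              apply Finset.card_le_card
              intro p hp
              simp only [PR, mem_filter] at hp ⊢
              exact ⟨hp.1.1, hp.1.2.1, hp.2⟩
            exact_mod_cast this
    · apply Finset.sum_nonneg
      intro p _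
      split_ifs
      · exact mul_nonneg (ox_rho0 p) (ox_jac D p).1
      · exact le_rfl
  · intro r M E hr hM hxM hE
    have hV : ∀ m : ℕ, ((∑ p ∈ PR D x,
      ((if orderOf (((D * (m : ℤ) ^ 2 : ℤ)) : ZMod p) = p - 1 then (1 : ℝ) else 0) -
        (if p ∣ m then 0 else rho p * (1 - (jacobiSym D p : ℝ)))) : ℝ) : ℂ) =
        ∑ p ∈ PR D x, ∑ χ ∈ NT p, β p χ * χ (m : ZMod p) := by
      intro m
      rw [Complex.ofReal_sum]
      apply Finset.sum_congr rfl
      intro p hp
      have h1 := (hβ p hp).1 m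
      have h2 : ((if orderOf (((D * (m : ℤ) ^ 2 : ℤ)) : ZMod p) = p - 1 then (1 : ℝ) else 0 : ℝ) : ℂ)
          = (if orderOf (((D * (m : ℤ) ^ 2 : ℤ)) : ZMod p) = p - 1 then (1 : ℂ) else 0) := by
        split_ifs <;> simp
      have h3 : ((if p ∣ m then 0 else rho p * (1 - (jacobiSym D p : ℝ)) : ℝ) : ℂ) =
          (if p ∣ m then 0 else ((rho p * (1 - (jacobiSym D p : ℝ)) : ℝ) : ℂ)) := by
        split_ifs <;> simp
      rw [Complex.ofReal_sub, h2, h3, h1]
      ring
    have hls := ls_weighted r M x hr hM hxM hx E hE (PR D x) (by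
      intro p hp
      simp only [PR, mem_filter, mem_range] at hp
      rw [mem_filter, mem_Icc]
      exact ⟨⟨hp.2.1.one_le, by omega⟩, hp.2.1⟩) (fun p χ => ‖β p χ‖)
      (fun p χ => norm_nonneg _) (fun p χ => hβ2 p χ) (by
        refine le_trans (Finset.sum_le_sum fun p hp => (hβ p hp).2) (ox_div D x hx))
    refine le_trans ?_ hls
    have h4 : |∑ m ∈ E, ∑ p ∈ PR D x,
      ((if orderOf (((D * (m : ℤ) ^ 2 : ℤ)) : ZMod p) = p - 1 then (1 : ℝ) else 0) -
        (if p ∣ m then 0 else rho p * (1 - (jacobiSym D p : ℝ))))| =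
        ‖∑ p ∈ PR D x, ∑ χ ∈ NT p, β p χ * ∑ m ∈ E, χ (m : ZMod p)‖ := by
      rw [← Real.norm_eq_abs, ← Complex.norm_real, Complex.ofReal_sum]
      simp_rw [hV]
      congr 1
      rw [Finset.sum_comm]
      apply Finset.sum_congr rfl
      intro p _
      rw [Finset.sum_comm]
      apply Finset.sum_congr rfl
      intro χ _
      rw [Finset.mul_sum]
    simp only
    rw [h4]
    refine (norm_sum_le _ _).trans (Finset.sum_le_sum fun p _ => ?_)
    refine (norm_sum_le _ _).trans (Finset.sum_le_sum fun χ _ => ?_)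
    rw [norm_mul]

theorem one_x (D : ℤ) (hD0 : D ≠ 0) (ε : ℝ) (hε : 0 < ε) : ∃ (C : ℝ) (X : ℕ), 0 < C ∧ 2 ≤ X ∧
    ∀ (r M x : ℕ), 1 ≤ r → 1 ≤ M → X ≤ x → (x : ℝ) ^ 2 ≤ (M : ℝ) ^ r →
    ((bad D ε (mainT D x) x M).card : ℝ) ≤
      C * M * ((1 + Real.log x) ^ 2 * ((x : ℝ) ^ (-(1 : ℝ) / (2 * r)) *
        (1 + Real.log M) ^ (((r : ℝ) - 1) / 2) + (x : ℝ) ^ (-(1 : ℝ) / 2))) := by
  classical
  set K : ℕ := 1 + D.natAbs.primeFactors.card with hK
  obtain ⟨X0, hX0⟩ := (Filter.tendsto_atTop.mp (tendsto_natCast_atTop_atTop.comp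
    Nat.tendsto_primeCounting) (4 * (K : ℝ) / ε)).exists_forall_of_atTop
  refine ⟨768 / ε + 768 / ε, max X0 4, by positivity, by omega, ?_⟩
  intro r M x hr hM hx hxM
  have hx4 : 4 ≤ x := (le_max_right _ _).trans hx
  have hx4' : (4 : ℝ) ≤ x := by exact_mod_cast hx4
  have hx0 : (0 : ℝ) < x := by linarith
  have hM1 : (1 : ℝ) ≤ M := by exact_mod_cast hM
  have hπ := hX0 x ((le_max_left _ _).trans hx)
  simp only [Function.comp_apply] at hπ
  rw [div_le_iff₀ hε] at hπ
  have hch := ox_cheb x hx4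
  set P : ℝ := (Nat.primeCounting x : ℝ) with hP
  have hlog : 0 < Real.log x := Real.log_pos (by linarith)
  have hP0 : 0 < P := by
    by_contra hcon
    push Not at hcon
    have : P * Real.log x ≤ 0 := mul_nonpos_of_nonpos_of_nonneg hcon hlog.le
    linarith
  obtain ⟨v, hv1, hv2⟩ := ox_key D x (by omega)
  set B : ℝ := 24 * (x * (1 + Real.log x)) * (x : ℝ) ^ (-(1 : ℝ) / (2 * r)) *
        (M * (1 + Real.log M) ^ (((r : ℝ) - 1) / 2)) with hB
  set E1 : Finset ℕ := (Icc 1 M).filter (fun m => ε * P / 4 ≤ v m) with hE1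
  set E2 : Finset ℕ := (Icc 1 M).filter (fun m => ε * P / 4 ≤ -v m) with hE2
  set W : Finset ℕ := (Icc 1 M).filter (fun m => ε * P / 4 ≤ 2 * (omx x m : ℝ)) with hW
  have hsub : bad D ε (mainT D x) x M ⊆ E1 ∪ E2 ∪ W := by
    intro m hm
    simp only [bad, mem_filter] at hm
    obtain ⟨h1, h2⟩ := hm
    by_contra hcon
    simp only [hE1, hE2, hW, mem_union, mem_filter, not_or, not_and, not_le] at hcon
    obtain ⟨⟨h3, h4⟩, h5⟩ := hcon
    have h3' := h3 h1
    have h4' := h4 h1
    have h5' := h5 h1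
    have h6 := ox_cnt D hD0 x m
    have h7 := hv1 m
    have h8 : |v m| < ε * P / 4 := abs_lt.2 ⟨by linarith, h3'⟩
    have h9 : |(cnt (D * (m : ℤ) ^ 2) x : ℝ) - mainT D x| ≤ K + (|v m| + 2 * omx x m) := by
      refine (abs_sub_le _ (∑ p ∈ PR D x,
        (if orderOf (((D * (m : ℤ) ^ 2 : ℤ)) : ZMod p) = p - 1 then (1 : ℝ) else 0)) _).trans ?_
      exact add_le_add h6 h7
    have h10 : (4 : ℝ) * K ≤ P * ε := hπ
    have : 0 < ε * P := by positivity
    linarith
  have hE1c : (E1.card : ℝ) * (ε * P / 4) ≤ B := by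
    have h1 : (E1.card : ℝ) * (ε * P / 4) ≤ ∑ m ∈ E1, v m := by
      rw [← nsmul_eq_mul, ← Finset.sum_const]
      apply Finset.sum_le_sum
      intro m hm
      exact (mem_filter.1 hm).2
    exact h1.trans ((le_abs_self _).trans (hv2 r M E1 hr hM hxM (Finset.filter_subset _ _)))
  have hE2c : (E2.card : ℝ) * (ε * P / 4) ≤ B := by
    have h1 : (E2.card : ℝ) * (ε * P / 4) ≤ ∑ m ∈ E2, -v m := by
      rw [← nsmul_eq_mul, ← Finset.sum_const]
      apply Finset.sum_le_sum
      intro m hm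
      exact (mem_filter.1 hm).2
    rw [Finset.sum_neg_distrib] at h1
    exact h1.trans ((neg_le_abs _).trans (hv2 r M E2 hr hM hxM (Finset.filter_subset _ _)))
  have hWc : (W.card : ℝ) * (ε * P / 4) ≤ 2 * (M * (1 + Real.log x)) := by
    have h1 : (W.card : ℝ) * (ε * P / 4) ≤ ∑ m ∈ W, 2 * (omx x m : ℝ) := by
      rw [← nsmul_eq_mul, ← Finset.sum_const]
      apply Finset.sum_le_sum
      intro m hm
      exact (mem_filter.1 hm).2
    have h2 : ∑ m ∈ W, 2 * (omx x m : ℝ) ≤ ∑ m ∈ Icc 1 M, 2 * (omx x m : ℝ) := by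
      apply Finset.sum_le_sum_of_subset_of_nonneg (Finset.filter_subset _ _)
      intro i _ _; positivity
    rw [← Finset.mul_sum (s := Icc 1 M)] at h2
    have h3 := ox_sum_omx x M
    linarith
  have hcard : ((bad D ε (mainT D x) x M).card : ℝ) ≤ E1.card + E2.card + W.card := by
    have h1 := Finset.card_le_card hsub
    have h2 := Finset.card_union_le (E1 ∪ E2) W
    have h3 := Finset.card_union_le E1 E2
    have : (bad D ε (mainT D x) x M).card ≤ E1.card + E2.card + W.card := by omega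
    exact_mod_cast this
  -- total
  have htot : ((bad D ε (mainT D x) x M).card : ℝ) * (ε * P / 4) ≤
      2 * B + 2 * (M * (1 + Real.log x)) := by
    have : 0 ≤ ε * P / 4 := by positivity
    calc ((bad D ε (mainT D x) x M).card : ℝ) * (ε * P / 4)
        ≤ (E1.card + E2.card + W.card) * (ε * P / 4) := mul_le_mul_of_nonneg_right hcard this
      _ = E1.card * (ε * P / 4) + E2.card * (ε * P / 4) + W.card * (ε * P / 4) := by ring
      _ ≤ _ := by linarith
  have hcd0 : (0 : ℝ) ≤ ((bad D ε (mainT D x) x M).card : ℝ) := Nat.cast_nonneg _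
  set cd : ℝ := ((bad D ε (mainT D x) x M).card : ℝ) with hcd
  -- multiply by log x
  have h1 : cd * (ε * x / 16) ≤ Real.log x * (2 * B + 2 * (M * (1 + Real.log x))) := by
    calc cd * (ε * x / 16) = cd * (ε / 4) * (x / 4) := by ring
      _ ≤ cd * (ε / 4) * (P * Real.log x) := by
          apply mul_le_mul_of_nonneg_left hch (by positivity)
      _ = Real.log x * (cd * (ε * P / 4)) := by ring
      _ ≤ _ := mul_le_mul_of_nonneg_left htot hlog.le
  have h2 : cd ≤ 16 / (ε * x) * (Real.log x * (2 * B + 2 * (M * (1 + Real.log x)))) := by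
    rw [div_mul_eq_mul_div, le_div_iff₀ (by positivity)]
    nlinarith
  refine h2.trans ?_
  have hl1 : Real.log x ≤ 1 + Real.log x := by linarith
  set L : ℝ := 1 + Real.log x with hL
  set A : ℝ := (x : ℝ) ^ (-(1 : ℝ) / (2 * r)) with hA
  set Q : ℝ := (1 + Real.log M) ^ (((r : ℝ) - 1) / 2) with hQ
  set S : ℝ := (x : ℝ) ^ (-(1 : ℝ) / 2) with hS
  have hA0 : 0 ≤ A := by positivity
  have hlogM : 0 ≤ Real.log M := Real.log_nonneg hM1
  have hQ0 : 0 ≤ Q := by positivity
  have hS0 : 0 ≤ S := by positivity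
  have hL0 : 0 ≤ L := by linarith
  have hS1 : 1 / (x : ℝ) ≤ S := by
    rw [hS, one_div, ← Real.rpow_neg_one]
    apply Real.rpow_le_rpow_of_exponent_le (by linarith)
    norm_num
  have h3 : 16 / (ε * x) * (Real.log x * (2 * B + 2 * (M * L))) =
      768 / ε * M * (Real.log x * L * (A * Q)) +
      32 / ε * M * (Real.log x * L * (1 / x)) := by
    rw [hB]
    field_simp
    ring
  rw [h3]
  have h4 : Real.log x * L ≤ L ^ 2 := by nlinarith
  have h5 : 0 ≤ Real.log x * L := by positivity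
  calc 768 / ε * M * (Real.log x * L * (A * Q)) + 32 / ε * M * (Real.log x * L * (1 / x))
      ≤ (768 / ε + 768 / ε) * M * (L ^ 2 * (A * Q)) + (768 / ε + 768 / ε) * M * (L ^ 2 * S) := by
        apply add_le_add
        · apply mul_le_mul
          · apply mul_le_mul_of_nonneg_right _ (by positivity)
            have : 0 < 768 / ε := by positivity
            linarith
          · exact mul_le_mul_of_nonneg_right h4 (by positivity)
          · positivity
          · positivity
        · apply mul_le_mul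
          · apply mul_le_mul_of_nonneg_right _ (by positivity)
            have h6 : 32 / ε ≤ 768 / ε := by
              apply div_le_div_of_nonneg_right (by norm_num) hε.le
            have : 0 < 768 / ε := by positivity
            linarith
          · exact mul_le_mul h4 hS1 (by positivity) (by positivity)
          · positivity
          · positivity
    _ = (768 / ε + 768 / ε) * M * (L ^ 2 * (A * Q + S)) := by ring

end Pool.Agent.H730R2.AA
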